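import Pool.Agent.RIG.Stmts
import Pool.Agent.RS.Razborov

/-!
# Approximation of circuits on a cube
-/

set_option autoImplicit false

namespace Pool.Agent.RIG

open Finset Pool.Agent.RS

/-! ### runs -/

section run

variable {n s : ℕ}

theorem apx_trueInputs_congr (C : Circuit n s) (x : Fin n → Bool) {val val' : Fin s → Bool}
    (g : Fin s) (h : ∀ h, C.level h < C.level g → val h = val' h) :
    C.trueInputs x val g = C.trueInputs x val' g := by
  unfold Circuit.trueInputs
  congr 1
  refine Finset.sum_congr rfl fun k _ => ?_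
  by_cases hk : C.gw g k = 0
  · simp [hk]
  · rw [h k (C.level_lt g k hk)]

theorem apx_fires_congr (C : Circuit n s) (x : Fin n → Bool) {val val' : Fin s → Bool}
    (g : Fin s) (h : ∀ h, C.level h < C.level g → val h = val' h) :
    C.Fires x val g ↔ C.Fires x val' g := by
  unfold Circuit.Fires
  rw [apx_trueInputs_congr C x g h]

/-- Every input has a run. -/
theorem apx_exists_run (C : Circuit n s) (x : Fin n → Bool) : ∃ val, C.IsRun x val := by
  classical
  have key : ∀ k : ℕ, ∃ val : Fin s → Bool, ∀ g, C.level g < k →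
      (val g = true ↔ C.Fires x val g) := by
    intro k
    induction k with
    | zero => exact ⟨fun _ => false, fun g hg => absurd hg (Nat.not_lt_zero _)⟩
    | succ k ih =>
      obtain ⟨val, hval⟩ := ih
      refine ⟨fun g => if C.level g < k then val g else decide (C.Fires x val g), ?_⟩
      intro g hg
      have hc : C.Fires x (fun g => if C.level g < k then val g
          else decide (C.Fires x val g)) g ↔ C.Fires x val g := by
        refine apx_fires_congr C x g fun h hh => ?_
        rw [if_pos (by omega)]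
      rw [hc]
      by_cases h : C.level g < k
      · simp only [if_pos h]
        exact hval g h
      · simp only [if_neg h, decide_eq_true_eq]
  obtain ⟨val, hval⟩ := key (∑ g, C.level g + 1)
  refine ⟨val, fun g => hval g ?_⟩
  have : C.level g ≤ ∑ g, C.level g := Finset.single_le_sum (f := C.level)
    (fun i _ => Nat.zero_le _) (mem_univ g)
  omega

/-- The run is unique. -/
theorem apx_run_unique {C : Circuit n s} {x : Fin n → Bool} {val val' : Fin s → Bool}
    (h : C.IsRun x val) (h' : C.IsRun x val') : val = val' := by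
  have key : ∀ k : ℕ, ∀ g, C.level g < k → val g = val' g := by
    intro k
    induction k with
    | zero => exact fun g hg => absurd hg (Nat.not_lt_zero _)
    | succ k ih =>
      intro g hg
      have := apx_fires_congr C x g (val := val) (val' := val') fun h hh => ih h (by omega)
      rw [← h g, ← h' g] at this
      exact Bool.eq_iff_iff.mpr this
  funext g
  exact key (C.level g + 1) g (by omega)

theorem apx_accepts_iff {C : Circuit n s} {x : Fin n → Bool} {val : Fin s → Bool}
    (h : C.IsRun x val) : C.Accepts x ↔ val C.out = true := by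
  constructor
  · rintro ⟨val', h1, h2⟩
    rw [apx_run_unique h h1]
    exact h2
  · exact fun h1 => ⟨val, h, h1⟩

end run

/-! ### one gate -/

section gate

variable {p : ℕ} [Fact p.Prime] {U : Type} [Fintype U] [DecidableEq U] {n s : ℕ}

private theorem apx_lit (φ : Fin n → U ⊕ Bool) (v : Fin n) {D : ℕ} (hD : 1 ≤ D) :
    (fun z => ind p (pt φ z v)) ∈ lowDeg (ZMod p) U D := by
  refine lowDeg_mono hD ?_
  unfold pt
  cases hv : φ v with
  | inl j =>
    have h1 : (fun z : Finset U => ind p (Sum.elim (fun j => decide (j ∈ z)) id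
        (Sum.inl j : U ⊕ Bool))) = fun z => if j ∈ z then (1 : ZMod p) else 0 := by
      funext z
      by_cases h : j ∈ z <;> simp [ind, h]
    rw [h1]
    exact mem_lit j
  | inr b => exact const_mem_lowDeg 1 (ind p b)

private theorem apx_lit2 (j : U) {D : ℕ} (hD : 1 ≤ D) :
    (fun z : Finset U => ind p (decide (j ∈ z))) ∈ lowDeg (ZMod p) U D := by
  refine lowDeg_mono hD ?_
  have h1 : (fun z : Finset U => ind p (decide (j ∈ z))) =
      fun z => if j ∈ z then (1 : ZMod p) else 0 := by
    funext z
    by_cases h : j ∈ z <;> simp [ind, h]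
  rw [h1]
  exact mem_lit j

/-- the kind of a gate which is not special -/
private def apx_kind (k : Kind) : RS.Kind :=
  match k with
  | Kind.nor => RS.Kind.nor
  | Kind.and => RS.Kind.and
  | Kind.or => RS.Kind.or
  | Kind.count _ A => RS.Kind.mod A

/-- the circuit with one gate -/
private def apx_one (C : Circuit n s) (g : Fin s) : RS.Circuit (Fin n ⊕ Fin s) 1 where
  kind _ := apx_kind (C.kind g)
  vw _ := Sum.elim (C.vw g) (C.gw g)
  gw _ _ := 0
  level _ := 0
  level_lt _ _ h := absurd rfl h
  out := 0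

private theorem apx_one_true (C : Circuit n s) (g : Fin s) (x : Fin n → Bool)
    (val : Fin s → Bool) (val' : Fin 1 → Bool) :
    (apx_one C g).trueInputs (Sum.elim x val) val' 0 = C.trueInputs x val g := by
  unfold RS.Circuit.trueInputs Circuit.trueInputs apx_one
  rw [Fintype.sum_sum_type]
  simp

private theorem apx_one_inputs (C : Circuit n s) (g : Fin s) :
    (apx_one C g).inputs 0 = C.inputs g := by
  unfold RS.Circuit.inputs Circuit.inputs apx_one
  rw [Fintype.sum_sum_type]
  simp

private theorem apx_one_fires (C : Circuit n s) (g : Fin s) (hns : ∀ M, ¬ C.Special p g M)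
    (x : Fin n → Bool) (val : Fin s → Bool) (val' : Fin 1 → Bool) :
    (apx_one C g).Fires p (Sum.elim x val) val' 0 ↔ C.Fires x val g := by
  have h1 := apx_one_true C g x val val'
  have h2 := apx_one_inputs C g
  unfold RS.Circuit.Fires Circuit.Fires
  rw [h1, h2]
  have h3 : (apx_one C g).kind 0 = apx_kind (C.kind g) := rfl
  rw [h3]
  cases hk : C.kind g with
  | nor => exact Iff.rfl
  | and => exact Iff.rfl
  | or => exact Iff.rfl
  | count M A =>
    have h4 : M = p := by
      by_contra hM
      exact hns M ⟨hM, A, hk⟩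
    subst h4
    exact Iff.rfl

/-- Gates which are not special. -/
private theorem apx_gate_ns (C : Circuit n s) (φ : Fin n → U ⊕ Bool)
    (val : Finset U → Fin s → Bool) (hval : ∀ z, C.IsRun (pt φ z) (val z)) (g : Fin s)
    (hns : ∀ M, ¬ C.Special p g M) (ℓ : ℕ) (hℓ : 1 ≤ ℓ) :
    ∃ (G : (Fin s → ZMod p) → Finset U → ZMod p) (Bad : Finset (Finset U)),
      Bad.card * 2 ^ ℓ ≤ 2 ^ Fintype.card U ∧
      (∀ z, z ∉ Bad → ∀ y : Fin s → ZMod p, (∀ h, C.gw g h ≠ 0 → y h = ind p (val z h)) →
        G y z = ind p (val z g)) ∧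
      ∀ (D : ℕ) (y : Fin s → Finset U → ZMod p), 1 ≤ D →
        (∀ h, C.gw g h ≠ 0 → y h ∈ lowDeg (ZMod p) U D) →
        (fun z => G (fun h => y h z) z) ∈ lowDeg (ZMod p) U (8 * p * (ℓ + 1) * D) := by
  classical
  have hrun : ∀ z, (apx_one C g).IsRun p (Sum.elim (pt φ z) (val z)) (fun _ => val z g) := by
    intro z i
    have hi : i = 0 := Subsingleton.elim _ _
    subst hi
    exact (hval z g).trans (apx_one_fires C g hns (pt φ z) (val z) _).symm
  obtain ⟨G, Bad, h1, h2, h3⟩ := gate_approx (p := p) (U := U) (apx_one C g)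
    (fun z => Sum.elim (pt φ z) (val z)) (fun z _ => val z g) hrun ℓ hℓ 0
  have hp2 : 2 ≤ p := (Fact.out : p.Prime).two_le
  refine ⟨fun y z => G (Sum.elim (Sum.elim (fun v => ind p (pt φ z v)) y) fun _ => 0), Bad,
    ?_, ?_, ?_⟩
  · exact (Nat.mul_le_mul_left _ (Nat.pow_le_pow_left hp2 ℓ)).trans h1
  · intro z hz y hy
    refine h2 z hz _ fun i hi => ?_
    rcases i with (v | h) | i
    · rfl
    · exact hy h hi
    · exact absurd rfl hi
  · intro D y hD hy
    have h4 := h3 D (Sum.elim (Sum.elim (fun v z => ind p (pt φ z v)) y) fun _ => 0)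
      (fun i hi => by
        rcases i with (v | h) | i
        · exact apx_lit φ v hD
        · exact hy h hi
        · exact absurd rfl hi)
    refine lowDeg_mono (D := (p - 1) * ℓ * D) ?_ ?_
    · refine Nat.mul_le_mul_right D ?_
      calc (p - 1) * ℓ ≤ p * (ℓ + 1) := Nat.mul_le_mul (Nat.sub_le _ _) (Nat.le_succ _)
        _ ≤ 8 * p * (ℓ + 1) := by nlinarith [Nat.zero_le (p * (ℓ + 1))]
    · have h5 : (fun z => G (Sum.elim (Sum.elim (fun v => ind p (pt φ z v)) fun h => y h z)
          fun _ => 0)) = fun z => G fun i => (Sum.elim (Sum.elim (fun v z => ind p (pt φ z v)) y)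
            fun _ => 0 : (Fin n ⊕ Fin s) ⊕ Fin 1 → Finset U → ZMod p) i z := by
        funext z
        congr 1
        funext i
        rcases i with (v | h) | i <;> rfl
      rw [h5]
      exact h4

/-- the number of true inputs modulo `M` -/
private theorem apx_mod (C : Circuit n s) (φ : Fin n → U ⊕ Bool) (g : Fin s) (M : ℕ)
    (z : Finset U) (val : Fin s → Bool) :
    ((∑ v ∈ univ.filter (fun v => φ v = Sum.inr true), C.vw g v) +
      ∑ i : U ⊕ Fin s, if (Sum.elim (fun j => decide (j ∈ z)) val : U ⊕ Fin s → Bool) i = true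
        then (Sum.elim (fun j => (∑ v ∈ univ.filter (fun v => φ v = Sum.inl j), C.vw g v) % M)
          (fun h => C.gw g h % M) : U ⊕ Fin s → ℕ) i else 0) % M =
      C.trueInputs (pt φ z) val g % M := by
  have hM : ∀ a : ℕ, a % M ≡ a [MOD M] := fun a => Nat.mod_modEq a M
  have hsum : ∀ {ι : Type} (t : Finset ι) (f f' : ι → ℕ), (∀ i ∈ t, f i ≡ f' i [MOD M]) →
      ∑ i ∈ t, f i ≡ ∑ i ∈ t, f' i [MOD M] := by
    intro ι t f f' hf
    classical
    induction t using Finset.induction_on with
    | empty => exact Nat.ModEq.refl _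
    | insert a t ha ih =>
      rw [Finset.sum_insert ha, Finset.sum_insert ha]
      exact (hf a (mem_insert_self a t)).add (ih fun i hi => hf i (mem_insert_of_mem hi))
  change _ ≡ _ [MOD M]
  rw [Fintype.sum_sum_type]
  unfold Circuit.trueInputs
  rw [← add_assoc]
  refine Nat.ModEq.add ?_ ?_
  · have h1 : ∑ v, (if pt φ z v = true then C.vw g v else 0) =
        (∑ v ∈ univ.filter (fun v => φ v = Sum.inr true), C.vw g v) +
          ∑ j : U, if j ∈ z then ∑ v ∈ univ.filter (fun v => φ v = Sum.inl j), C.vw g v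
            else 0 := by
      have h2 : ∀ v, (if pt φ z v = true then C.vw g v else 0) =
          (if φ v = Sum.inr true then C.vw g v else 0) +
            ∑ j : U, if j ∈ z then (if φ v = Sum.inl j then C.vw g v else 0) else 0 := by
        intro v
        unfold pt
        cases hv : φ v with
        | inl j =>
          rw [if_neg (by simp : ¬ (Sum.inl j : U ⊕ Bool) = Sum.inr true), zero_add,
            Finset.sum_eq_single j]
          · by_cases hj : j ∈ z <;> simp [hj]
          · intro j' _ hj'
            by_cases hz : j' ∈ z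
            · rw [if_pos hz, if_neg]
              intro h
              exact hj' (Sum.inl.inj h).symm
            · rw [if_neg hz]
          · intro h
            exact absurd (mem_univ j) h
        | inr b =>
          rw [Finset.sum_eq_zero]
          · rw [add_zero]
            cases b <;> simp
          · intro j _
            by_cases hz : j ∈ z
            · rw [if_pos hz, if_neg (by simp)]
            · rw [if_neg hz]
      rw [Finset.sum_congr rfl fun v _ => h2 v, Finset.sum_add_distrib, Finset.sum_filter,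
        Finset.sum_comm]
      congr 1
      refine Finset.sum_congr rfl fun j _ => ?_
      by_cases hz : j ∈ z
      · simp only [if_pos hz]
        rw [Finset.sum_filter]
      · simp only [if_neg hz, Finset.sum_const_zero]
    rw [h1]
    refine Nat.ModEq.add (Nat.ModEq.refl _) (hsum _ _ _ fun j _ => ?_)
    simp only [Sum.elim_inl, decide_eq_true_eq]
    by_cases hz : j ∈ z
    · rw [if_pos hz, if_pos hz]
      exact hM _
    · rw [if_neg hz, if_neg hz]
  · refine hsum _ _ _ fun h _ => ?_
    simp only [Sum.elim_inr]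
    by_cases hh : val h = true
    · rw [if_pos hh, if_pos hh]
      exact hM _
    · rw [if_neg hh, if_neg hh]

/-- Special gates. -/
private theorem apx_gate_sp (hG : St_Gate) (C : Circuit n s) (φ : Fin n → U ⊕ Bool)
    (val : Finset U → Fin s → Bool) (hval : ∀ z, C.IsRun (pt φ z) (val z)) (g : Fin s) (M : ℕ)
    (hs : C.Special p g M) (L ℓ : ℕ) (hact : act C φ g M ≤ 2 ^ L) (hℓ : 1 ≤ ℓ) :
    ∃ (G : (Fin s → ZMod p) → Finset U → ZMod p) (Bad : Finset (Finset U)),
      Bad.card * 2 ^ ℓ ≤ L * 2 ^ Fintype.card U ∧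
      (∀ z, z ∉ Bad → ∀ y : Fin s → ZMod p, (∀ h, C.gw g h ≠ 0 → y h = ind p (val z h)) →
        G y z = ind p (val z g)) ∧
      ∀ (D : ℕ) (y : Fin s → Finset U → ZMod p), 1 ≤ D →
        (∀ h, C.gw g h ≠ 0 → y h ∈ lowDeg (ZMod p) U D) →
        (fun z => G (fun h => y h z) z) ∈ lowDeg (ZMod p) U (8 * (ℓ + 1) * rt L * D) := by
  classical
  obtain ⟨-, A, hA⟩ := hs
  let wt : U ⊕ Fin s → ℕ :=
    Sum.elim (fun j => (∑ v ∈ univ.filter (fun v => φ v = Sum.inl j), C.vw g v) % M)
      fun h => C.gw g h % M
  let Y : Finset U → U ⊕ Fin s → Bool := fun z => Sum.elim (fun j => decide (j ∈ z)) (val z)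
  let c0 : ℕ := ∑ v ∈ univ.filter (fun v => φ v = Sum.inr true), C.vw g v
  have hwt : ∑ i, wt i ≤ 2 ^ L := by
    rw [Fintype.sum_sum_type]
    exact hact
  obtain ⟨G, Bad, h1, h2, h3⟩ := hG p L ℓ (U ⊕ Fin s) U wt Y (fun c => A ((c0 + c) % M)) hwt hℓ
  refine ⟨fun y z => G (Sum.elim (fun j => ind p (decide (j ∈ z))) y), Bad, h1, ?_, ?_⟩
  · intro z hz y hy
    have h4 := h2 z hz (Sum.elim (fun j => ind p (decide (j ∈ z))) y) (fun i hi => by
      rcases i with j | h
      · rfl
      · refine hy h fun h0 => hi ?_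
        show C.gw g h % M = 0
        rw [h0, Nat.zero_mod])
    show G (Sum.elim (fun j => ind p (decide (j ∈ z))) y) = _
    rw [h4]
    have h5 := apx_mod C φ g M z (val z)
    have h6 : (c0 + ∑ i, if Y z i = true then wt i else 0) % M =
      C.trueInputs (pt φ z) (val z) g % M := h5
    rw [h6]
    have h7 : val z g = true ↔ A (C.trueInputs (pt φ z) (val z) g % M) = true := by
      rw [hval z g]
      unfold Circuit.Fires
      rw [hA]
    rw [Bool.eq_iff_iff.mpr h7]
  · intro D y hD hy
    have h4 := h3 D (Sum.elim (fun j z => ind p (decide (j ∈ z))) y) (fun i hi => by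
      rcases i with j | h
      · exact apx_lit2 j hD
      · refine hy h fun h0 => hi ?_
        show C.gw g h % M = 0
        rw [h0, Nat.zero_mod])
    have h5 : (fun z => G (Sum.elim (fun j => ind p (decide (j ∈ z))) fun h => y h z)) =
        fun z => G fun i => (Sum.elim (fun j z => ind p (decide (j ∈ z))) y :
          U ⊕ Fin s → Finset U → ZMod p) i z := by
      funext z
      congr 1
      funext i
      rcases i with j | h <;> rfl
    show (fun z => G (Sum.elim (fun j => ind p (decide (j ∈ z))) fun h => y h z)) ∈ _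
    rw [h5]
    exact h4

end gate

theorem st_Apx (hG : St_Gate) : St_Apx := by
  classical
  intro p _ U _ _ n s L ℓ C φ ρ hN hact hℓ
  choose val hval using fun z : Finset U => apx_exists_run C (pt φ z)
  have hp2 : 2 ≤ p := (Fact.out : p.Prime).two_le
  set a : ℕ := 8 * p * (ℓ + 1) with ha
  have ha1 : 1 ≤ a := Nat.mul_pos (Nat.mul_pos (by norm_num) (by omega)) (Nat.succ_pos _)
  have hr1 : 1 ≤ rt L := Nat.one_le_pow _ _ (by norm_num)
  -- the gates
  have hgate : ∀ g : Fin s, ∃ (G : (Fin s → ZMod p) → Finset U → ZMod p)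
      (Bad : Finset (Finset U)), Bad.card * 2 ^ ℓ ≤ (L + 1) * 2 ^ Fintype.card U ∧
      (ρ g ≤ ρ C.out →
        (∀ z, z ∉ Bad → ∀ y : Fin s → ZMod p, (∀ h, C.gw g h ≠ 0 → y h = ind p (val z h)) →
          G y z = ind p (val z g)) ∧
        ∀ y : Fin s → Finset U → ZMod p,
          (∀ h, C.gw g h ≠ 0 → y h ∈ lowDeg (ZMod p) U (a ^ (C.level h + 1) * rt L ^ ρ h)) →
          (fun z => G (fun h => y h z) z) ∈
            lowDeg (ZMod p) U (a ^ (C.level g + 1) * rt L ^ ρ g)) := by
    intro g
    by_cases hρ : ρ g ≤ ρ C.out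
    · by_cases hs : ∃ M, C.Special p g M
      · obtain ⟨M, hs⟩ := hs
        obtain ⟨G, Bad, h1, h2, h3⟩ :=
          apx_gate_sp hG C φ val hval g M hs L ℓ (hact g M hs hρ) hℓ
        refine ⟨G, Bad, h1.trans (Nat.mul_le_mul_right _ (Nat.le_succ _)), fun _ => ⟨h2, ?_⟩⟩
        intro y hy
        obtain ⟨h4, h5⟩ := (hN g).2 M hs
        have h6 := h3 (a ^ C.level g * rt L ^ (ρ g - 1)) y
          (Nat.mul_pos (Nat.one_le_pow _ _ ha1) (Nat.one_le_pow _ _ hr1)) (fun h hh => by
            refine lowDeg_mono ?_ (hy h hh)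
            refine Nat.mul_le_mul (Nat.pow_le_pow_right ha1 (C.level_lt g h hh))
              (Nat.pow_le_pow_right hr1 ?_)
            have := h5 h hh
            omega)
        refine lowDeg_mono ?_ h6
        calc 8 * (ℓ + 1) * rt L * (a ^ C.level g * rt L ^ (ρ g - 1))
            = (8 * 1 * (ℓ + 1)) * a ^ C.level g * (rt L ^ (ρ g - 1) * rt L) := by ring
          _ ≤ a * a ^ C.level g * (rt L ^ (ρ g - 1) * rt L) := by
            refine Nat.mul_le_mul_right _ (Nat.mul_le_mul_right _ ?_)
            rw [ha]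
            exact Nat.mul_le_mul_right _ (Nat.mul_le_mul_left _ (by omega))
          _ = a ^ (C.level g + 1) * rt L ^ ρ g := by
            rw [← pow_succ, ← pow_succ']
            congr 2
            omega
      · have hns : ∀ M, ¬ C.Special p g M := fun M hM => hs ⟨M, hM⟩
        obtain ⟨G, Bad, h1, h2, h3⟩ := apx_gate_ns C φ val hval g hns ℓ hℓ
        refine ⟨G, Bad, ?_, fun _ => ⟨h2, ?_⟩⟩
        · refine h1.trans ?_
          exact Nat.le_mul_of_pos_left _ (Nat.succ_pos _)
        · intro y hy
          have h6 := h3 (a ^ C.level g * rt L ^ ρ g) y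
            (Nat.mul_pos (Nat.one_le_pow _ _ ha1) (Nat.one_le_pow _ _ hr1)) (fun h hh => by
              refine lowDeg_mono ?_ (hy h hh)
              exact Nat.mul_le_mul (Nat.pow_le_pow_right ha1 (C.level_lt g h hh))
                (Nat.pow_le_pow_right hr1 ((hN g).1 h hh)))
          refine lowDeg_mono (le_of_eq ?_) h6
          rw [← ha, ← mul_assoc, ← pow_succ']
    · exact ⟨fun _ _ => 0, ∅, by simp, fun h => absurd h hρ⟩
  choose G Bad hB hGB using hgate
  have key : ∀ k : ℕ, ∃ P : Fin s → Finset U → ZMod p, ∀ g, C.level g < k →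
      ρ g ≤ ρ C.out → P g ∈ lowDeg (ZMod p) U (a ^ (C.level g + 1) * rt L ^ ρ g) ∧
      ∀ z, (∀ h, z ∉ Bad h) → P g z = ind p (val z g) := by
    intro k
    induction k with
    | zero => exact ⟨fun _ => 0, fun g hg => absurd hg (Nat.not_lt_zero _)⟩
    | succ k ih =>
      obtain ⟨P, hP⟩ := ih
      refine ⟨fun g => if C.level g < k then P g else fun z => G g (fun h => P h z) z, ?_⟩
      intro g hg hρ
      by_cases h : C.level g < k
      · simp only [if_pos h]
        exact hP g h hρ
      · simp only [if_neg h]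
        have hch : ∀ h, C.gw g h ≠ 0 → C.level h < k ∧ ρ h ≤ ρ C.out := fun h' hh' => by
          have h1 := C.level_lt g h' hh'
          have h2 := (hN g).1 h' hh'
          exact ⟨by omega, by omega⟩
        obtain ⟨h1, h2⟩ := hGB g hρ
        constructor
        · exact h2 P fun h' hh' => (hP h' (hch h' hh').1 (hch h' hh').2).1
        · intro z hz
          exact h1 z (hz g) _ fun h' hh' => (hP h' (hch h' hh').1 (hch h' hh').2).2 z hz
  obtain ⟨P, hP⟩ := key (C.level C.out + 1)
  obtain ⟨hP1, hP2⟩ := hP C.out (Nat.lt_succ_self _) (le_refl _)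
  refine ⟨P C.out, univ.biUnion Bad, hP1, ?_, ?_⟩
  · calc (univ.biUnion Bad).card * 2 ^ ℓ ≤ (∑ g, (Bad g).card) * 2 ^ ℓ :=
        Nat.mul_le_mul_right _ Finset.card_biUnion_le
      _ = ∑ g, (Bad g).card * 2 ^ ℓ := Finset.sum_mul _ _ _
      _ ≤ ∑ _g : Fin s, (L + 1) * 2 ^ Fintype.card U := Finset.sum_le_sum fun g _ => hB g
      _ = s * (L + 1) * 2 ^ Fintype.card U := by
        rw [Finset.sum_const, card_univ, Fintype.card_fin, smul_eq_mul, mul_assoc]
  · intro z hz
    have hz' : ∀ h, z ∉ Bad h := fun h hh => hz (mem_biUnion.mpr ⟨h, mem_univ h, hh⟩)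
    have h1 := hP2 z hz'
    have h2 := apx_accepts_iff (hval z)
    constructor
    · intro h
      rw [h1, h2.mp h]
      rfl
    · intro h
      rw [h1]
      have : val z C.out ≠ true := fun h' => h (h2.mpr h')
      simp [ind, this]

end Pool.Agent.RIG
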