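import Pool.Agent.RIG.Stmts

/-!
# Blk: the theorem for blocks
-/

set_option autoImplicit false

namespace Pool.Agent.RIG

open Finset

private theorem blk_card {n k : ℕ} (B : Fin k → Finset (Fin n)) (hB : ∀ j, (B j).Nonempty)
    (hd : ∀ i j, i ≠ j → Disjoint (B i) (B j)) (S : Finset (Fin k)) :
    S.card ≤ ∑ j ∈ S, (B j).card := by
  calc S.card = ∑ j ∈ S, 1 := by simp
    _ ≤ ∑ j ∈ S, (B j).card := sum_le_sum fun j _ => (hB j).card_pos

private theorem blk_sum {n k : ℕ} (B : Fin k → Finset (Fin n))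
    (hd : ∀ i j, i ≠ j → Disjoint (B i) (B j)) : ∑ j, (B j).card ≤ n := by
  have h1 : (univ.biUnion B).card = ∑ j, (B j).card :=
    card_biUnion fun i _ j _ hij => hd i j hij
  rw [← h1]
  calc (univ.biUnion B).card ≤ (univ : Finset (Fin n)).card := card_le_card (subset_univ _)
    _ = n := by simp

private theorem blk_half {n k : ℕ} (B : Fin k → Finset (Fin n))
    (hd : ∀ i j, i ≠ j → Disjoint (B i) (B j)) :
    ∃ S : Finset (Fin k), k ≤ 2 * S.card + 1 ∧ 2 * ∑ j ∈ S, (B j).card ≤ n := by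
  obtain ⟨S, -, hS⟩ := exists_subset_card_eq (s := (univ : Finset (Fin k))) (n := k / 2)
    (by rw [card_univ, Fintype.card_fin]; exact Nat.div_le_self k 2)
  have h1 : ∑ j ∈ S, (B j).card + ∑ j ∈ Sᶜ, (B j).card = ∑ j, (B j).card :=
    sum_add_sum_compl S _
  have h2 := blk_sum B hd
  have h3 : Sᶜ.card = k - k / 2 := by rw [card_compl, Fintype.card_fin, hS]
  by_cases h : ∑ j ∈ S, (B j).card ≤ ∑ j ∈ Sᶜ, (B j).card
  · exact ⟨S, by omega, by omega⟩
  · exact ⟨Sᶜ, by omega, by omega⟩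

private theorem blk_sub {k : ℕ} (S : Finset (Fin k)) (F : Fin k → ℕ) :
    ∑ j : {j // j ∈ S}, F j ≤ ∑ j, F j := by
  rw [sum_coe_sort S F]
  exact sum_le_sum_of_subset (subset_univ S)

theorem st_Blk (h1 : St_Key) (h2 : St_Num) : St_Blk := by
  intro p d t hp
  haveI : Fact p.Prime := ⟨hp⟩
  obtain ⟨K₀, hK₀⟩ := h2 p d t hp.two_le
  refine ⟨max K₀ 2, fun n s f C ρ hlev hN hρ hmaj k B hB hd hact => ?_⟩
  have hs : 1 ≤ s := Nat.lt_of_le_of_lt (Nat.zero_le _) C.out.isLt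
  have hkn : k ≤ n := by
    have h3 := blk_card B hB hd univ
    rw [card_univ, Fintype.card_fin] at h3
    exact h3.trans (blk_sum B hd)
  have hlog0 : 0 ≤ Real.log (s + n) := Real.log_nonneg (by
    have : (1 : ℝ) ≤ s := by exact_mod_cast hs
    have h4 : (0 : ℝ) ≤ n := Nat.cast_nonneg n
    linarith)
  rcases Nat.eq_zero_or_pos n with hn | hn
  · have : k = 0 := by omega
    subst this
    have h5 : (0 : ℝ) ≤ (f + 1) ^ t * (((max K₀ 2 : ℕ) : ℝ) * Real.log (s + n)) ^ (max K₀ 2) := by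
      positivity
    simpa using h5
  have hlog : 1 ≤ ((max K₀ 2 : ℕ) : ℝ) * Real.log (s + n) := by
    have h6 : Real.log 2 ≤ Real.log (s + n) := by
      apply Real.log_le_log (by norm_num)
      have h7 : (1 : ℝ) ≤ s := by exact_mod_cast hs
      have h8 : (1 : ℝ) ≤ n := by exact_mod_cast hn
      linarith
    have h9 : (2 : ℝ) ≤ ((max K₀ 2 : ℕ) : ℝ) := by exact_mod_cast le_max_right K₀ 2
    have h10 : (0.6931471803 : ℝ) < Real.log 2 := Real.log_two_gt_d9
    nlinarith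
  have hKK : ((K₀ : ℝ) * Real.log (s + n)) ^ K₀ ≤
      (((max K₀ 2 : ℕ) : ℝ) * Real.log (s + n)) ^ (max K₀ 2) := by
    have h11 : (K₀ : ℝ) * Real.log (s + n) ≤ ((max K₀ 2 : ℕ) : ℝ) * Real.log (s + n) := by
      apply mul_le_mul_of_nonneg_right _ hlog0
      exact_mod_cast le_max_left K₀ 2
    calc ((K₀ : ℝ) * Real.log (s + n)) ^ K₀ ≤
        (((max K₀ 2 : ℕ) : ℝ) * Real.log (s + n)) ^ K₀ :=
          pow_le_pow_left₀ (by positivity) h11 _
      _ ≤ _ := pow_le_pow_right₀ hlog (le_max_left _ _)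
  have hone : (1 : ℝ) ≤ (((max K₀ 2 : ℕ) : ℝ) * Real.log (s + n)) ^ (max K₀ 2) :=
    one_le_pow₀ hlog
  -- the bound from the key statement
  have key : ∀ f' : ℕ, (∀ g M, C.Special p g M → ρ g ≤ ρ C.out →
      ∑ j, (∑ v ∈ B j, C.vw g v) % M + ∑ h, C.gw g h % M ≤ f') → ∀ L ℓ : ℕ, f' ≤ 2 ^ L → 1 ≤ ℓ →
      4 * n * s * (L + 1) ≤ 2 ^ ℓ → k ≤ 200 * ((8 * p * (ℓ + 1)) ^ d * rt L ^ t + 1) ^ 2 := by
    intro f' hf' L ℓ hL hl hns
    obtain ⟨S, hS1, hS2⟩ := blk_half B hd
    have h12 := h1 p {j // j ∈ S} n s L ℓ C ρ (fun j => B j) hN hmaj (fun j => hB j)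
      (fun i j hij => hd i j fun h => hij (Subtype.ext h))
      (by
        have h13 : ∑ j : {j // j ∈ S}, (B j).card = ∑ j ∈ S, (B j).card :=
          sum_coe_sort S fun j => (B j).card
        rw [h13]
        exact hS2)
      (fun g M hg hgo => by
        refine le_trans ?_ ((hf' g M hg hgo).trans hL)
        exact Nat.add_le_add_right (blk_sub S fun j => (∑ v ∈ B j, C.vw g v) % M) _)
      hl hns
    rw [Fintype.card_coe] at h12
    have h14 : (8 * p * (ℓ + 1)) ^ (C.level C.out + 1) * rt L ^ ρ C.out ≤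
        (8 * p * (ℓ + 1)) ^ d * rt L ^ t := by
      apply Nat.mul_le_mul
      · exact Nat.pow_le_pow_right (by have := hp.pos; positivity) hlev
      · exact Nat.pow_le_pow_right (by unfold rt; positivity) hρ
    have h15 : 100 * ((8 * p * (ℓ + 1)) ^ (C.level C.out + 1) * rt L ^ ρ C.out + 1) ^ 2 ≤
        100 * ((8 * p * (ℓ + 1)) ^ d * rt L ^ t + 1) ^ 2 := by gcongr
    omega
  by_cases hf : f ≤ n
  · have h16 := hK₀ n s f k hn hs hkn hf (key f fun g M hg _ => hact g M hg)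
    refine h16.trans (mul_le_mul_of_nonneg_left hKK (by positivity))
  · rcases Nat.eq_zero_or_pos t with ht | ht
    · subst ht
      have h17 := hK₀ n s 0 k hn hs hkn (Nat.zero_le _) (key 0 fun g M hg hgo => by
        have h18 := ((hN g).2 M hg).1
        omega)
      refine h17.trans ?_
      rw [pow_zero, pow_zero]
      exact mul_le_mul_of_nonneg_left hKK zero_le_one
    · have h19 : (k : ℝ) ≤ f + 1 := by
        have : k ≤ f + 1 := by omega
        exact_mod_cast this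
      have h20 : (1 : ℝ) ≤ (f : ℝ) + 1 := by
        have : (0 : ℝ) ≤ f := Nat.cast_nonneg f
        linarith
      calc (k : ℝ) ≤ (f + 1) ^ 1 := by rw [pow_one]; exact h19
        _ ≤ (f + 1) ^ t := pow_le_pow_right₀ h20 ht
        _ = (f + 1) ^ t * 1 := (mul_one _).symm
        _ ≤ _ := mul_le_mul_of_nonneg_left hone (by positivity)

end Pool.Agent.RIG
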