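import Pool.Agent.RIG.Stmts

/-!
# Approximation of one counting gate
-/

set_option autoImplicit false

namespace Pool.Agent.RIG

open Finset Pool.Agent.RS

private theorem gate_rt_two (L : ℕ) : rt (L + 2) = 2 * rt L := by
  unfold rt
  have h : (L + 2 + 1) / 2 = (L + 1) / 2 + 1 := by omega
  rw [h, pow_succ, mul_comm]

private theorem gate_rt_one (L : ℕ) : rt (L + 1) ≤ 2 * rt L := by
  unfold rt
  rw [mul_comm, ← pow_succ]
  exact Nat.pow_le_pow_right (by norm_num) (by omega)

theorem gate_sum_rt (L : ℕ) : ∑ i ∈ range L, rt i ≤ 3 * rt L := by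
  induction L using Nat.strong_induction_on with
  | _ L ih =>
    match L, ih with
    | 0, _ => simp
    | 1, _ => simp [rt]
    | L + 2, ih =>
      have h1 := ih L (by omega)
      have h2 := gate_rt_one L
      rw [Finset.sum_range_succ, Finset.sum_range_succ, gate_rt_two]
      omega

theorem gate_deg (L ℓ : ℕ) : 1 + 2 * (ℓ + 1) * ∑ i ∈ range L, rt i ≤ 8 * (ℓ + 1) * rt L := by
  have h1 := gate_sum_rt L
  have h2 : 1 ≤ rt L := Nat.one_le_pow _ _ (by norm_num)
  have h3 : 2 * (ℓ + 1) * ∑ i ∈ range L, rt i ≤ 2 * (ℓ + 1) * (3 * rt L) :=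
    Nat.mul_le_mul_left _ h1
  have h4 : 1 ≤ (ℓ + 1) * rt L := Nat.mul_pos (Nat.succ_pos _) h2
  nlinarith

theorem st_Gate (h : St_Half) : St_Gate := by
  classical
  intro p _ L ℓ I U _ _ _ _ wt Y A hwt hℓ
  -- the repeated wires
  have hcard : Fintype.card (Σ i : I, Fin (wt i)) ≤ Fintype.card (Fin (2 ^ L)) := by
    rw [Fintype.card_sigma, Fintype.card_fin]
    simp only [Fintype.card_fin]
    exact hwt
  obtain ⟨e⟩ := Function.Embedding.nonempty_of_card_le hcard
  have hr : ∀ j : Fin (2 ^ L), ∃ r : Option (Σ i : I, Fin (wt i)),
      (∀ s, e s = j → r = some s) ∧ ∀ s, r = some s → e s = j := by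
    intro j
    by_cases hj : ∃ s, e s = j
    · obtain ⟨s, rfl⟩ := hj
      exact ⟨some s, fun s' hs' => by rw [e.injective hs'], fun s' hs' => by
        rw [Option.some.inj hs']⟩
    · exact ⟨none, fun s hs => absurd ⟨s, hs⟩ hj, fun s hs => by cases hs⟩
  choose r hr1 hr2 using hr
  let Y' : Finset U → Fin (2 ^ L) → Bool := fun z j => (r j).elim false fun s => Y z s.1
  obtain ⟨P, Bad, hBad, hP, hdeg⟩ := h p L ℓ (Fin (2 ^ L)) U Y' (Fintype.card_fin _) hℓ
  let ex : (I → ZMod p) → Fin (2 ^ L) → ZMod p := fun y j => (r j).elim 0 fun s => y s.1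
  -- the number of true wires
  have hcount : ∀ z, (univ.filter fun j => Y' z j = true).card =
      ∑ i, if Y z i = true then wt i else 0 := by
    intro z
    have h1 : (univ.filter fun j => Y' z j = true) =
        ((univ : Finset (Σ i : I, Fin (wt i))).filter fun s => Y z s.1 = true).map e := by
      ext j
      simp only [mem_filter, mem_univ, true_and, mem_map]
      constructor
      · intro hj
        cases hrj : r j with
        | none =>
          have : Y' z j = false := by
            show (r j).elim false (fun s => Y z s.1) = false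
            rw [hrj]
            rfl
          rw [this] at hj
          exact absurd hj Bool.false_ne_true
        | some s =>
          refine ⟨s, ?_, hr2 j s hrj⟩
          have : Y' z j = Y z s.1 := by
            show (r j).elim false (fun s => Y z s.1) = _
            rw [hrj]
            rfl
          rw [← this]
          exact hj
      · rintro ⟨s, hs, rfl⟩
        show (r (e s)).elim false (fun s => Y z s.1) = true
        rw [hr1 (e s) s rfl]
        exact hs
    rw [h1, card_map, card_filter, Fintype.sum_sigma]
    refine Finset.sum_congr rfl fun i _ => ?_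
    show ∑ _x : Fin (wt i), (if Y z i = true then 1 else 0) = _
    rw [Finset.sum_const, card_univ, Fintype.card_fin]
    split_ifs <;> simp
  have hle : ∀ z, ∑ i, (if Y z i = true then wt i else 0) ≤ 2 ^ L := by
    intro z
    refine le_trans (Finset.sum_le_sum fun i _ => ?_) hwt
    split_ifs
    · exact le_refl _
    · exact Nat.zero_le _
  refine ⟨fun y => ∑ c ∈ range (2 ^ L + 1), ind p (A c) * P c (ex y), Bad, hBad, ?_, ?_⟩
  · intro z hz y hy
    have h1 : ex y = fun j => ind p (Y' z j) := by
      funext j
      show (r j).elim 0 (fun s => y s.1) = ind p ((r j).elim false fun s => Y z s.1)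
      cases hrj : r j with
      | none => rfl
      | some s =>
        show y s.1 = ind p (Y z s.1)
        refine hy s.1 fun h0 => ?_
        have h2 := s.2.isLt
        omega
    show ∑ c ∈ range (2 ^ L + 1), ind p (A c) * P c (ex y) = _
    rw [h1]
    simp only [hP z hz, hcount z]
    rw [Finset.sum_eq_single (∑ i, if Y z i = true then wt i else 0)]
    · rw [if_pos rfl, mul_one]
    · intro c _ hc
      rw [if_neg hc.symm, mul_zero]
    · intro hn
      refine absurd (mem_range.2 ?_) hn
      have := hle z
      omega
  · intro D y hy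
    have h1 : (fun z => ∑ c ∈ range (2 ^ L + 1), ind p (A c) * P c (ex fun i => y i z)) =
        ∑ c ∈ range (2 ^ L + 1), ind p (A c) • fun z => P c (ex fun i => y i z) := by
      funext z
      rw [Finset.sum_apply]
      rfl
    show (fun z => ∑ c ∈ range (2 ^ L + 1), ind p (A c) * P c (ex fun i => y i z)) ∈ _
    rw [h1]
    refine Submodule.sum_mem _ fun c _ => Submodule.smul_mem _ _ ?_
    have h2 := hdeg c D (fun j => (r j).elim 0 fun s => y s.1) (fun j => by
      cases hrj : r j with
      | none => exact Submodule.zero_mem _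
      | some s =>
        refine hy s.1 fun h0 => ?_
        have h2 := s.2.isLt
        omega)
    refine lowDeg_mono (Nat.mul_le_mul_right D (gate_deg L ℓ)) ?_
    have h3 : (fun z => P c (ex fun i => y i z)) = fun z => P c fun j =>
        ((r j).elim 0 fun s => y s.1 : Finset U → ZMod p) z := by
      funext z
      congr 1
      funext j
      show (r j).elim 0 (fun s => y s.1 z) = ((r j).elim 0 fun s => y s.1 : Finset U → ZMod p) z
      cases r j with
      | none => rfl
      | some s => rfl
    rw [h3]
    exact h2

end Pool.Agent.RIG
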