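import Pool.Agent.RIG.Stmts

/-!
# The number of true wires by repeated halving
-/

set_option autoImplicit false

namespace Pool.Agent.RIG

open Finset Pool.Agent.RS

variable {p : ℕ} [Fact p.Prime]

private lemma half_esym {I : Type} [Fintype I] [DecidableEq I] (b : I → Bool) (j : ℕ) :
    ∑ T ∈ powersetCard j (univ : Finset I), ∏ i ∈ T, ind p (b i) =
      (((univ.filter fun i => b i = true).card.choose j : ℕ) : ZMod p) := by
  classical
  have h1 : ∀ T : Finset I, ∏ i ∈ T, ind p (b i) =
      if T ⊆ univ.filter (fun i => b i = true) then 1 else 0 := by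
    intro T
    split_ifs with h
    · refine prod_eq_one fun i hi => ?_
      have h2 := (mem_filter.1 (h hi)).2
      simp [ind, h2]
    · obtain ⟨i, hi, hn⟩ := not_subset.1 h
      refine prod_eq_zero hi ?_
      have h2 : b i = false := by
        rw [mem_filter] at hn
        have h3 : ¬ b i = true := fun h4 => hn ⟨mem_univ i, h4⟩
        simpa using h3
      simp [ind, h2]
  rw [sum_congr rfl fun T _ => h1 T, ← sum_filter, sum_const, nsmul_one, ← card_powersetCard]
  congr 2
  ext T
  simp only [mem_filter, mem_powersetCard]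
  constructor
  · exact fun h => ⟨h.2, h.1.2⟩
  · exact fun h => ⟨⟨subset_univ _, h.2⟩, h.1⟩

/-- a polynomial for a function of the number of true wires, on a window -/
private lemma half_window (hWin : St_Win) {I U : Type} [Fintype I] [DecidableEq I] [Fintype U]
    [DecidableEq U] (a w : ℕ) (g : ℕ → ZMod p) :
    ∃ Q : (I → ZMod p) → ZMod p,
      (∀ b : I → Bool, a ≤ (univ.filter fun i => b i = true).card →
        (univ.filter fun i => b i = true).card ≤ a + w →
        Q (fun i => ind p (b i)) = g (univ.filter fun i => b i = true).card) ∧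
      ∀ (D : ℕ) (y : I → Finset U → ZMod p), (∀ i, y i ∈ lowDeg (ZMod p) U D) →
        (fun z => Q fun i => y i z) ∈ lowDeg (ZMod p) U (w * D) := by
  obtain ⟨b, hb⟩ := hWin (ZMod p) a w g
  refine ⟨fun y => ∑ j ∈ range (w + 1), b j * ∑ T ∈ powersetCard j (univ : Finset I),
    ∏ i ∈ T, y i, ?_, ?_⟩
  · intro β h1 h2
    rw [← hb _ h1 h2]
    refine sum_congr rfl fun j _ => ?_
    rw [half_esym]
  · intro D y hy
    have h1 : (fun z => ∑ j ∈ range (w + 1), b j * ∑ T ∈ powersetCard j (univ : Finset I),
        ∏ i ∈ T, y i z) = ∑ j ∈ range (w + 1), b j • ∑ T ∈ powersetCard j (univ : Finset I),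
        ∏ i ∈ T, y i := by
      funext z
      simp [Finset.sum_apply, Finset.prod_apply]
    rw [h1]
    refine Submodule.sum_mem _ fun j hj => Submodule.smul_mem _ _ (Submodule.sum_mem _ ?_)
    intro T hT
    have h2 := prod_mem_lowDeg (F := ZMod p) T y fun i _ => hy i
    rw [(mem_powersetCard.1 hT).2] at h2
    exact lowDeg_mono (Nat.mul_le_mul_right _ (by rw [mem_range] at hj; omega)) h2

private lemma half_rt (L : ℕ) : 2 ^ L ≤ rt L ^ 2 := by
  unfold rt
  rw [← pow_mul]
  exact Nat.pow_le_pow_right (by norm_num) (by omega)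

/-- a good choice of one wire of each pair -/
private lemma half_choose (hTail : St_Tail) {T U : Type} [Fintype T] [DecidableEq T] [Fintype U]
    [DecidableEq U] (ℓ w : ℕ) (hℓ : 1 ≤ ℓ) (hw : (ℓ + 1) ^ 2 * Fintype.card T ≤ w ^ 2)
    (δ : Finset U → T → ℤ) (hδ : ∀ z u, |δ z u| ≤ 1) :
    ∃ ω : T → Bool, ((univ : Finset (Finset U)).filter fun z =>
      (w : ℤ) < |∑ u, if ω u = true then -δ z u else δ z u|).card * 2 ^ ℓ ≤
        2 ^ Fintype.card U := by
  classical
  have h1 : ∑ ω : T → Bool, ((univ : Finset (Finset U)).filter fun z =>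
      (w : ℤ) < |∑ u, if ω u = true then -δ z u else δ z u|).card * 2 ^ ℓ ≤
      ∑ _ω : T → Bool, 2 ^ Fintype.card U := by
    have h2 : ∀ ω : T → Bool, ((univ : Finset (Finset U)).filter fun z =>
        (w : ℤ) < |∑ u, if ω u = true then -δ z u else δ z u|).card * 2 ^ ℓ =
        ∑ z : Finset U, (if (w : ℤ) < |∑ u, if ω u = true then -δ z u else δ z u| then 1 else 0) *
          2 ^ ℓ := by
      intro ω
      rw [card_filter, sum_mul]
    rw [sum_congr rfl fun ω _ => h2 ω, sum_comm]
    have h3 : ∀ z : Finset U, (∑ ω : T → Bool,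
        (if (w : ℤ) < |∑ u, if ω u = true then -δ z u else δ z u| then 1 else 0) * 2 ^ ℓ) ≤
        2 ^ Fintype.card T := by
      intro z
      rw [← sum_mul, ← card_filter]
      exact hTail T (δ z) ℓ w (hδ z) hℓ hw
    refine (sum_le_sum fun z _ => h3 z).trans ?_
    rw [sum_const, sum_const, card_univ, card_univ, Fintype.card_finset, Fintype.card_fun,
      Fintype.card_bool, smul_eq_mul, smul_eq_mul, mul_comm]
  obtain ⟨ω, -, h⟩ := exists_le_of_sum_le univ_nonempty h1
  exact ⟨ω, h⟩

private lemma half_count {I T : Type} [Fintype I] [DecidableEq I] [Fintype T] [DecidableEq T]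
    (e : I ≃ Bool × T) (b : I → Bool) (ω : T → Bool) :
    ((univ.filter fun i => b i = true).card : ℤ) -
      2 * ((univ.filter fun u => b (e.symm (ω u, u)) = true).card : ℤ) =
    ∑ u, if ω u = true
      then -((if b (e.symm (true, u)) = true then 1 else 0) -
        (if b (e.symm (false, u)) = true then 1 else 0) : ℤ)
      else ((if b (e.symm (true, u)) = true then 1 else 0) -
        (if b (e.symm (false, u)) = true then 1 else 0) : ℤ) := by
  have h1 : ((univ.filter fun i => b i = true).card : ℤ) =
      ∑ u, ((if b (e.symm (true, u)) = true then 1 else 0) +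
        (if b (e.symm (false, u)) = true then 1 else 0) : ℤ) := by
    rw [card_filter]
    push_cast
    rw [← Equiv.sum_comp e.symm, Fintype.sum_prod_type, Fintype.sum_bool, sum_add_distrib]
  have h2 : ((univ.filter fun u => b (e.symm (ω u, u)) = true).card : ℤ) =
      ∑ u, (if b (e.symm (ω u, u)) = true then 1 else 0 : ℤ) := by
    rw [card_filter]
    push_cast
    rfl
  rw [h1, h2, mul_sum, ← sum_sub_distrib]
  refine sum_congr rfl fun u _ => ?_
  by_cases h : ω u = true
  · simp only [h, if_true]
    ring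
  · have h' : ω u = false := by simpa using h
    simp only [h', Bool.false_eq_true, if_false]
    ring

theorem st_Half (hWin : St_Win) (hTail : St_Tail) : St_Half := by
  intro p _ L
  induction L with
  | zero =>
    intro ℓ I U _ _ _ _ Y hI _
    choose Q hQ1 hQ2 using fun c : ℕ => half_window (p := p) hWin (I := I) (U := U) 0 1
      fun S => if S = c then 1 else 0
    refine ⟨Q, ∅, by simp, ?_, ?_⟩
    · intro z _ c
      refine hQ1 c (Y z) (Nat.zero_le _) ?_
      have := card_le_univ (univ.filter fun i => Y z i = true)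
      rw [hI] at this
      simpa using this
    · intro c D y hy
      simpa using hQ2 c D y hy
  | succ L ih =>
    intro ℓ I U _ _ _ _ Y hI hℓ
    classical
    have hcard : Fintype.card I = Fintype.card (Bool × Fin (2 ^ L)) := by
      rw [hI, Fintype.card_prod, Fintype.card_bool, Fintype.card_fin, pow_succ, mul_comm]
    let e : I ≃ Bool × Fin (2 ^ L) := Fintype.equivOfCardEq hcard
    have hw : (ℓ + 1) ^ 2 * Fintype.card (Fin (2 ^ L)) ≤ ((ℓ + 1) * rt L) ^ 2 := by
      rw [Fintype.card_fin, mul_pow]
      exact Nat.mul_le_mul_left _ (half_rt L)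
    obtain ⟨ω, hω⟩ := half_choose hTail (T := Fin (2 ^ L)) (U := U) ℓ ((ℓ + 1) * rt L) hℓ hw
      (fun z u => ((if Y z (e.symm (true, u)) = true then 1 else 0) -
        (if Y z (e.symm (false, u)) = true then 1 else 0) : ℤ)) (by
        intro z u
        split_ifs <;> simp)
    obtain ⟨P', Bad', hB, hP, hD⟩ := ih ℓ (Fin (2 ^ L)) U
      (fun z u => Y z (e.symm (ω u, u))) (Fintype.card_fin _) hℓ
    choose Q hQ1 hQ2 using fun c c' : ℕ => half_window (p := p) hWin (I := I) (U := U)
      (2 * c' - (ℓ + 1) * rt L) (2 * ((ℓ + 1) * rt L)) fun S => if S = c then 1 else 0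
    set N : Finset (Finset U) := univ.filter fun z =>
      (((ℓ + 1) * rt L : ℕ) : ℤ) < |∑ u, if ω u = true
        then -((if Y z (e.symm (true, u)) = true then 1 else 0) -
          (if Y z (e.symm (false, u)) = true then 1 else 0) : ℤ)
        else ((if Y z (e.symm (true, u)) = true then 1 else 0) -
          (if Y z (e.symm (false, u)) = true then 1 else 0) : ℤ)| with hN
    refine ⟨fun c y => ∑ c' ∈ range (2 ^ L + 1), P' c' (fun u => y (e.symm (ω u, u))) * Q c c' y,
      Bad' ∪ N, ?_, ?_, ?_⟩
    · calc (Bad' ∪ N).card * 2 ^ ℓ ≤ (Bad'.card + N.card) * 2 ^ ℓ :=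
            Nat.mul_le_mul_right _ (card_union_le _ _)
        _ = Bad'.card * 2 ^ ℓ + N.card * 2 ^ ℓ := add_mul _ _ _
        _ ≤ L * 2 ^ Fintype.card U + 2 ^ Fintype.card U := Nat.add_le_add hB hω
        _ = (L + 1) * 2 ^ Fintype.card U := by ring
    · intro z hz c
      rw [mem_union, not_or] at hz
      have h1 := hP z hz.1
      have h2 : |((univ.filter fun i => Y z i = true).card : ℤ) -
          2 * ((univ.filter fun u => Y z (e.symm (ω u, u)) = true).card : ℤ)| ≤
          (((ℓ + 1) * rt L : ℕ) : ℤ) := by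
        rw [half_count]
        by_contra hcon
        exact hz.2 (mem_filter.2 ⟨mem_univ z, not_le.1 hcon⟩)
      set c₀ := (univ.filter fun u => Y z (e.symm (ω u, u)) = true).card with hc₀
      have h3 : c₀ ≤ 2 ^ L := by
        have := card_le_univ (univ.filter fun u => Y z (e.symm (ω u, u)) = true)
        rwa [Fintype.card_fin] at this
      beta_reduce
      rw [sum_eq_single c₀]
      · rw [h1 c₀, if_pos rfl, one_mul]
        rw [abs_le] at h2
        refine hQ1 c c₀ (Y z) ?_ ?_
        · omega
        · omega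
      · intro c' _ hne
        rw [h1 c', if_neg (Ne.symm hne), zero_mul]
      · intro h4
        exact absurd (mem_range.2 (by omega)) h4
    · intro c D y hy
      have h1 : (fun z => ∑ c' ∈ range (2 ^ L + 1),
          P' c' (fun u => y (e.symm (ω u, u)) z) * Q c c' fun i => y i z) =
          ∑ c' ∈ range (2 ^ L + 1), ((fun z => P' c' fun u => y (e.symm (ω u, u)) z) *
            fun z => Q c c' fun i => y i z) := by
        funext z
        rw [Finset.sum_apply]
        rfl
      rw [h1]
      refine Submodule.sum_mem _ fun c' _ => ?_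
      have h2 := mul_mem_lowDeg (hD c' D (fun u => y (e.symm (ω u, u))) fun u => hy _)
        (hQ2 c c' D y hy)
      have h3 : (1 + 2 * (ℓ + 1) * ∑ i ∈ range (L + 1), rt i) * D =
          (1 + 2 * (ℓ + 1) * ∑ i ∈ range L, rt i) * D + 2 * ((ℓ + 1) * rt L) * D := by
        rw [sum_range_succ]
        ring
      rw [h3]
      exact h2

end Pool.Agent.RIG
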