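import Pool.Agent.RIG.Stmts
import Pool.Agent.MXC.DistPoly

/-!
# Key: the bound for the number of blocks, without constants
-/

set_option autoImplicit false

namespace Pool.Agent.RIG

open Finset Pool.Agent.RS

section phi

variable {n : ℕ} {U : Type}

open Classical in
/-- the substitution: block variables, and constants outside of the blocks -/
private noncomputable def keyPhi (B : U → Finset (Fin n)) (E : Finset (Fin n)) :
    Fin n → U ⊕ Bool :=
  fun v => if h : ∃ j, v ∈ B j then Sum.inl h.choose else Sum.inr (decide (v ∈ E))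

private theorem keyPhi_inl {B : U → Finset (Fin n)} {E : Finset (Fin n)}
    (hd : ∀ i j, i ≠ j → Disjoint (B i) (B j)) (v : Fin n) (j : U) :
    keyPhi B E v = Sum.inl j ↔ v ∈ B j := by
  unfold keyPhi
  by_cases h : ∃ j, v ∈ B j
  · rw [dif_pos h]
    constructor
    · intro h1
      rw [← Sum.inl.inj h1]
      exact h.choose_spec
    · intro h1
      congr 1
      by_contra hne
      exact Finset.disjoint_left.1 (hd _ _ hne) h.choose_spec h1
  · rw [dif_neg h]
    constructor
    · intro h1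
      exact absurd h1 (by simp)
    · intro h1
      exact absurd ⟨j, h1⟩ h

variable [DecidableEq U]

private theorem key_pt {B : U → Finset (Fin n)} {E : Finset (Fin n)}
    (hd : ∀ i j, i ≠ j → Disjoint (B i) (B j)) (hE : ∀ j, Disjoint E (B j)) (z : Finset U) :
    (univ.filter fun v => pt (keyPhi B E) z v = true) = E ∪ z.biUnion B := by
  classical
  ext v
  rw [mem_filter, mem_union, mem_biUnion]
  simp only [mem_univ, true_and]
  unfold pt
  by_cases h : ∃ j, v ∈ B j
  · obtain ⟨j, hj⟩ := h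
    rw [(keyPhi_inl hd v j).2 hj]
    simp only [Sum.elim_inl, decide_eq_true_eq]
    constructor
    · intro h1
      exact Or.inr ⟨j, h1, hj⟩
    · rintro (h1 | ⟨i, hi, h1⟩)
      · exact absurd hj (Finset.disjoint_left.1 (hE j) h1)
      · by_contra hne
        have hij : i ≠ j := by
          rintro rfl
          exact hne hi
        exact Finset.disjoint_left.1 (hd i j hij) h1 hj
  · have h1 : keyPhi B E v = Sum.inr (decide (v ∈ E)) := by
      unfold keyPhi
      rw [dif_neg h]
    rw [h1]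
    simp only [Sum.elim_inr, id_eq, decide_eq_true_eq]
    constructor
    · exact Or.inl
    · rintro (h2 | ⟨i, -, h2⟩)
      · exact h2
      · exact absurd ⟨i, h2⟩ h

private theorem key_card {B : U → Finset (Fin n)} {E : Finset (Fin n)}
    (hd : ∀ i j, i ≠ j → Disjoint (B i) (B j)) (hE : ∀ j, Disjoint E (B j)) (z : Finset U) :
    (univ.filter fun v => pt (keyPhi B E) z v = true).card = E.card + ∑ j ∈ z, (B j).card := by
  classical
  rw [key_pt hd hE, card_union_of_disjoint, card_biUnion]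
  · intro i _ j _ hij
    exact hd i j hij
  · rw [Finset.disjoint_biUnion_right]
    intro i _
    exact hE i

private theorem key_act [Fintype U] {s : ℕ} {B : U → Finset (Fin n)} {E : Finset (Fin n)}
    (hd : ∀ i j, i ≠ j → Disjoint (B i) (B j)) (C : Circuit n s) (g : Fin s) (M : ℕ) :
    act C (keyPhi B E) g M = ∑ j, (∑ v ∈ B j, C.vw g v) % M + ∑ h, C.gw g h % M := by
  unfold act
  congr 1
  refine Finset.sum_congr rfl fun j _ => ?_
  congr 2
  ext v
  rw [mem_filter, keyPhi_inl hd]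
  simp

end phi

private theorem key_tel {R : Type} [CommRing R] (X : R) (B S : ℕ) (h : S ≤ B) :
    1 + ∑ θ ∈ Icc 1 B, (X ^ θ - X ^ (θ - 1)) * (if θ ≤ S then 1 else 0) = X ^ S := by
  have h1 : ∑ θ ∈ Icc 1 B, (X ^ θ - X ^ (θ - 1)) * (if θ ≤ S then 1 else 0) =
      ∑ θ ∈ range S, (X ^ (θ + 1) - X ^ θ) := by
    simp only [mul_ite, mul_one, mul_zero]
    rw [← Finset.sum_filter]
    symm
    refine Finset.sum_bij (fun θ _ => θ + 1) ?_ ?_ ?_ ?_
    · intro θ hθ
      rw [mem_range] at hθ
      rw [mem_filter, mem_Icc]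
      omega
    · intro a _ b _ hab
      omega
    · intro b hb
      rw [mem_filter, mem_Icc] at hb
      exact ⟨b - 1, by rw [mem_range]; omega, by omega⟩
    · intro θ _
      rw [Nat.add_sub_cancel]
  rw [h1, Finset.sum_range_sub]
  simp

theorem st_Key (h1 : St_Apx) (h2 : St_Smol) : St_Key := by
  classical
  intro p _ U _ _ n s L ℓ C ρ B hN hM hne hd hB hact hℓ hsz
  by_contra hcon
  push Not at hcon
  set D : ℕ := (8 * p * (ℓ + 1)) ^ (C.level C.out + 1) * rt L ^ ρ C.out with hD
  set T : ℕ := ∑ j, (B j).card with hT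
  have hs : 0 < s := C.out.pos
  -- the number of variables is positive
  have hU : 0 < Fintype.card U := by
    have : 0 < 100 * (D + 1) ^ 2 := by positivity
    omega
  obtain ⟨j₀⟩ := Fintype.card_pos_iff.1 hU
  have hn : 0 < n := by
    obtain ⟨v, -⟩ := hne j₀
    exact v.pos
  -- the constants outside
  have hout : (univ \ univ.biUnion B).card = n - T := by
    rw [card_sdiff_of_subset (subset_univ _), card_univ, Fintype.card_fin, card_biUnion]
    intro i _ j _ hij
    exact hd i j hij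
  have hex : ∀ θ : ℕ, ∃ E : Finset (Fin n), θ ∈ Icc 1 T → E.card = (n + 1) / 2 - θ ∧
      ∀ j, Disjoint E (B j) := by
    intro θ
    by_cases hθ : θ ∈ Icc 1 T
    · rw [mem_Icc] at hθ
      obtain ⟨E, hE, hEc⟩ := exists_subset_card_eq (s := univ \ univ.biUnion B)
        (n := (n + 1) / 2 - θ) (by rw [hout]; omega)
      refine ⟨E, fun _ => ⟨hEc, fun j => ?_⟩⟩
      rw [Finset.disjoint_left]
      intro v hv hvj
      have h3 := hE hv
      rw [mem_sdiff, mem_biUnion] at h3
      exact h3.2 ⟨j, mem_univ _, hvj⟩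
    · exact ⟨∅, fun h => absurd h hθ⟩
  choose E hE using hex
  -- the approximations
  have hap : ∀ θ : ℕ, ∃ (P : Finset U → ZMod p) (W : Finset (Finset U)), θ ∈ Icc 1 T →
      P ∈ lowDeg (ZMod p) U D ∧ W.card * 2 ^ ℓ ≤ s * (L + 1) * 2 ^ Fintype.card U ∧
      ∀ z, z ∉ W → P z = if θ ≤ ∑ j ∈ z, (B j).card then 1 else 0 := by
    intro θ
    obtain ⟨P, W, hP, hW, hz⟩ := h1 p U n s L ℓ C (keyPhi B (E θ)) ρ hN (by
      intro g M hg hρ
      rw [key_act hd]
      exact hact g M hg hρ) hℓ
    refine ⟨P, W, fun hθ => ⟨hP, hW, fun z hzW => ?_⟩⟩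
    obtain ⟨hEc, hEd⟩ := hE θ hθ
    rw [mem_Icc] at hθ
    have h3 : C.Accepts (pt (keyPhi B (E θ)) z) ↔ θ ≤ ∑ j ∈ z, (B j).card := by
      rw [hM, key_card hd hEd, hEc]
      omega
    split_ifs with h4
    · exact (hz z hzW).1 (h3.2 h4)
    · exact (hz z hzW).2 (mt h3.1 h4)
  choose P W hPW using hap
  -- the function field
  let X : RatFunc (ZMod p) := RatFunc.X
  have hX0 : X ≠ 0 := RatFunc.X_ne_zero
  have hX1 : ∀ k : ℕ, 0 < k → X ^ k ≠ 1 := by
    intro k hk h
    have h3 : algebraMap (Polynomial (ZMod p)) (RatFunc (ZMod p)) (Polynomial.X ^ k) =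
        algebraMap (Polynomial (ZMod p)) (RatFunc (ZMod p)) 1 := by
      rw [map_pow, RatFunc.algebraMap_X, map_one]
      exact h
    have h4 := RatFunc.algebraMap_injective (ZMod p) h3
    have h5 := congrArg Polynomial.natDegree h4
    rw [Polynomial.natDegree_X_pow, Polynomial.natDegree_one] at h5
    omega
  let Q : Finset U → RatFunc (ZMod p) := fun z =>
    1 + ∑ θ ∈ Icc 1 T, (X ^ θ - X ^ (θ - 1)) * algebraMap (ZMod p) (RatFunc (ZMod p)) (P θ z)
  have hQ : Q ∈ lowDeg (RatFunc (ZMod p)) U D := by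
    have h3 : Q = 1 + ∑ θ ∈ Icc 1 T, (X ^ θ - X ^ (θ - 1)) •
        fun z => algebraMap (ZMod p) (RatFunc (ZMod p)) (P θ z) := by
      funext z
      simp only [Q, Pi.add_apply, Pi.one_apply, Finset.sum_apply, Pi.smul_apply, smul_eq_mul]
    rw [h3]
    refine Submodule.add_mem _ (one_mem_lowDeg D) (Submodule.sum_mem _ fun θ hθ => ?_)
    exact Submodule.smul_mem _ _ (MXC.map_mem_lowDeg (hPW θ hθ).1)
  let A : Finset (Finset U) := univ \ (Icc 1 T).biUnion W
  have hQA : ∀ z ∈ A, Q z = ∏ j ∈ z, X ^ (B j).card := by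
    intro z hz
    have hzW : ∀ θ ∈ Icc 1 T, z ∉ W θ := by
      intro θ hθ hzW
      rw [mem_sdiff, mem_biUnion] at hz
      exact hz.2 ⟨θ, hθ, hzW⟩
    rw [prod_pow_eq_pow_sum, ← key_tel X T (∑ j ∈ z, (B j).card)
      (sum_le_sum_of_subset (subset_univ z))]
    show 1 + _ = 1 + _
    congr 1
    refine sum_congr rfl fun θ hθ => ?_
    rw [(hPW θ hθ).2.2 z (hzW θ hθ)]
    split_ifs
    · rw [map_one]
    · rw [map_zero]
  have h3 := h2 (RatFunc (ZMod p)) U D (fun j => X ^ (B j).card) Q A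
    (fun j => pow_ne_zero _ hX0) (fun j => hX1 _ (card_pos.2 (hne j))) hQ hcon hQA
  -- the number of exceptional points
  have hAc : A.card = 2 ^ Fintype.card U - ((Icc 1 T).biUnion W).card := by
    show (univ \ (Icc 1 T).biUnion W).card = _
    rw [card_sdiff_of_subset (subset_univ _), card_univ, Fintype.card_finset]
  have hW1 : ((Icc 1 T).biUnion W).card * 2 ^ ℓ ≤ T * (s * (L + 1) * 2 ^ Fintype.card U) := by
    calc ((Icc 1 T).biUnion W).card * 2 ^ ℓ ≤ (∑ θ ∈ Icc 1 T, (W θ).card) * 2 ^ ℓ :=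
          Nat.mul_le_mul_right _ card_biUnion_le
      _ = ∑ θ ∈ Icc 1 T, (W θ).card * 2 ^ ℓ := sum_mul _ _ _
      _ ≤ ∑ θ ∈ Icc 1 T, s * (L + 1) * 2 ^ Fintype.card U :=
          sum_le_sum fun θ hθ => (hPW θ hθ).2.1
      _ = T * (s * (L + 1) * 2 ^ Fintype.card U) := by
          rw [sum_const, Nat.card_Icc, smul_eq_mul, Nat.add_sub_cancel]
  have hW2 : ((Icc 1 T).biUnion W).card * 8 ≤ 2 ^ Fintype.card U := by
    have hpos : 0 < n * s * (L + 1) := by positivity
    have h4 : ((Icc 1 T).biUnion W).card * 8 * (n * s * (L + 1)) ≤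
        2 ^ Fintype.card U * (n * s * (L + 1)) := by
      calc ((Icc 1 T).biUnion W).card * 8 * (n * s * (L + 1)) =
            2 * (((Icc 1 T).biUnion W).card * (4 * n * s * (L + 1))) := by ring
        _ ≤ 2 * (((Icc 1 T).biUnion W).card * 2 ^ ℓ) :=
            Nat.mul_le_mul_left _ (Nat.mul_le_mul_left _ hsz)
        _ ≤ 2 * (T * (s * (L + 1) * 2 ^ Fintype.card U)) := Nat.mul_le_mul_left _ hW1
        _ = (2 * T) * (s * (L + 1) * 2 ^ Fintype.card U) := by ring
        _ ≤ n * (s * (L + 1) * 2 ^ Fintype.card U) := Nat.mul_le_mul_right _ hB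
        _ = _ := by ring
    exact Nat.le_of_mul_le_mul_right h4 hpos
  have hpow : 0 < 2 ^ Fintype.card U := by positivity
  omega

end Pool.Agent.RIG
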