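import Pool.Agent.RIG.Stmts
import Pool.Agent.Helper82.ACC.ZeroSum

/-!
# Local rigidity, from the theorem on blocks
-/

set_option autoImplicit false

namespace Pool.Agent.RIG

open Finset

/-- Loc: local rigidity. -/
def St_Loc : Prop :=
  ∀ p d t : ℕ, p.Prime → ∃ K : ℕ, ∀ (n s f m r k : ℕ) (C : Circuit n s) (ρ : Fin s → ℕ)
    (W : Fin k → Finset (Fin n)) (R : Fin k → Fin r → Fin n → ZMod m), 2 ≤ m →
    C.level C.out + 1 ≤ d → C.Nested p ρ → ρ C.out ≤ t → C.Majority →
    (∀ j, m ^ 2 * r < (W j).card) → (∀ i j, i ≠ j → Disjoint (W i) (W j)) →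
    (∀ g M, C.Special p g M → M = m ∧ ∃ (J : Finset (Fin k)) (H : Finset (Fin s)),
      J.card + H.card ≤ f ∧ (∀ h, h ∉ H → (C.gw g h : ZMod m) = 0) ∧
      ∀ j, j ∉ J → ∃ a : Fin r → ZMod m, ∀ v ∈ W j, (C.vw g v : ZMod m) = ∑ i, a i * R j i v) →
    (k : ℝ) ≤ (m * f + 1) ^ t * (K * Real.log (s + n)) ^ K

theorem st_Loc (hBlk : St_Blk) : St_Loc := by
  intro p d t hp
  obtain ⟨K, hK⟩ := hBlk p d t hp
  refine ⟨K, ?_⟩
  intro n s f m r k C ρ W R hm hd hρ ht hC hW hdis hg
  classical
  have hm0 : 0 < m := by omega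
  choose B hBW hBn hB0 using fun j => Pool.Agent.Helper82.ACC.exists_zeroSum (κ := Fin r) m hm
    (W j) (fun v i => R j i v) (by rw [Fintype.card_fin]; exact hW j)
  have h1 := hK n s (m * f) C ρ hd hρ ht hC k B hBn
    (fun i j hij => disjoint_of_subset_left (hBW i) (disjoint_of_subset_right (hBW j) (hdis i j hij)))
    (fun g M hgM => by
      obtain ⟨rfl, J, H, hf, hH, hJ⟩ := hg g M hgM
      have h2 : ∀ j, (∑ v ∈ B j, C.vw g v) % M ≤ M * if j ∈ J then 1 else 0 := by
        intro j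
        split_ifs with h
        · rw [mul_one]
          exact (Nat.mod_lt _ hm0).le
        · obtain ⟨a, ha⟩ := hJ j h
          have h3 : ((∑ v ∈ B j, C.vw g v : ℕ) : ZMod M) = 0 := by
            push_cast
            rw [sum_congr rfl fun v hv => ha v (hBW j hv), sum_comm]
            refine sum_eq_zero fun i _ => ?_
            rw [← mul_sum, hB0 j i, mul_zero]
          rw [mul_zero, Nat.le_zero]
          exact Nat.mod_eq_zero_of_dvd ((ZMod.natCast_eq_zero_iff _ _).1 h3)
      have h4 : ∀ h, C.gw g h % M ≤ M * if h ∈ H then 1 else 0 := by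
        intro h
        split_ifs with h5
        · rw [mul_one]
          exact (Nat.mod_lt _ hm0).le
        · rw [mul_zero, Nat.le_zero]
          exact Nat.mod_eq_zero_of_dvd ((ZMod.natCast_eq_zero_iff _ _).1 (hH h h5))
      calc ∑ j, (∑ v ∈ B j, C.vw g v) % M + ∑ h, C.gw g h % M
          ≤ ∑ j, (M * if j ∈ J then 1 else 0) + ∑ h, (M * if h ∈ H then 1 else 0) :=
            Nat.add_le_add (sum_le_sum fun j _ => h2 j) (sum_le_sum fun h _ => h4 h)
        _ = M * (J.card + H.card) := by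
            rw [← mul_sum, ← mul_sum, ← card_filter, ← card_filter, mul_add, filter_mem_eq_inter,
              filter_mem_eq_inter, univ_inter, univ_inter]
        _ ≤ M * f := Nat.mul_le_mul_left _ hf)
  push_cast at h1
  exact h1

end Pool.Agent.RIG
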