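import Pool.Agent.RIG.Stmts
import Pool.Agent.Helper82.ACC.ZeroSum

/-!
# Pack: disjoint blocks on which linear sums vanish
-/

set_option autoImplicit false

namespace Pool.Agent.RIG

open Finset

private theorem pack_aux (m r n : ℕ) (hm : 2 ≤ m) (R : Fin r → Fin n → ZMod m) :
    ∀ (N : ℕ) (W : Finset (Fin n)), W.card ≤ N →
    ∃ (k : ℕ) (B : Fin k → Finset (Fin n)), W.card ≤ (k + 1) * (m ^ 2 * r + 1) ∧
      (∀ j, (B j).Nonempty) ∧ (∀ j, B j ⊆ W) ∧ (∀ i j, i ≠ j → Disjoint (B i) (B j)) ∧
      ∀ j i, ∑ v ∈ B j, R i v = 0 := by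
  intro N
  induction N with
  | zero =>
    intro W hW
    refine ⟨0, Fin.elim0, by omega, fun j => j.elim0, fun j => j.elim0, fun j => j.elim0,
      fun j => j.elim0⟩
  | succ N ih =>
    intro W hW
    by_cases h : m ^ 2 * r + 1 ≤ W.card
    · obtain ⟨U, hUW, hU⟩ := exists_subset_card_eq h
      obtain ⟨T, hTU, hTn, hT⟩ := Helper82.ACC.exists_zeroSum (κ := Fin r) m hm U
        (fun v i => R i v) (by rw [Fintype.card_fin, hU])
      have hTW : T ⊆ W := hTU.trans hUW
      have hc : (W \ T).card = W.card - T.card := card_sdiff_of_subset hTW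
      have hT1 : 1 ≤ T.card := hTn.card_pos
      have hT2 : T.card ≤ m ^ 2 * r + 1 := hU ▸ card_le_card hTU
      obtain ⟨k, B, h1, h2, h3, h4, h5⟩ := ih (W \ T) (by omega)
      refine ⟨k + 1, Fin.cons T B, ?_, ?_, ?_, ?_, ?_⟩
      · have : W.card ≤ (k + 1) * (m ^ 2 * r + 1) + (m ^ 2 * r + 1) := by omega
        calc W.card ≤ (k + 1) * (m ^ 2 * r + 1) + (m ^ 2 * r + 1) := this
          _ = (k + 1 + 1) * (m ^ 2 * r + 1) := by ring
      · intro j
        refine Fin.cases ?_ (fun j => ?_) j
        · exact hTn
        · exact h2 j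
      · intro j
        refine Fin.cases ?_ (fun j => ?_) j
        · exact hTW
        · exact (h3 j).trans sdiff_subset
      · intro i j
        refine Fin.cases ?_ (fun i => ?_) i
        · refine Fin.cases ?_ (fun j => ?_) j
          · intro h; exact absurd rfl h
          · intro _
            exact disjoint_sdiff.mono_right (h3 j)
        · refine Fin.cases ?_ (fun j => ?_) j
          · intro _
            exact (disjoint_sdiff.mono_right (h3 i)).symm
          · intro h
            exact h4 i j fun h' => h (by rw [h'])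
      · intro j
        refine Fin.cases ?_ (fun j => ?_) j
        · exact hT
        · exact h5 j
    · refine ⟨0, Fin.elim0, by omega, fun j => j.elim0, fun j => j.elim0, fun j => j.elim0,
        fun j => j.elim0⟩

theorem st_Pack : St_Pack := fun m r n hm W R => pack_aux m r n hm R W.card W le_rfl

end Pool.Agent.RIG
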