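import Pool.Agent.RIG.Stmts

/-!
# Rig: the theorem on rigidity
-/

set_option autoImplicit false

namespace Pool.Agent.RIG

open Finset

private theorem rig_num (K : ℕ) (Lg : ℝ) (hL : 0.6931471803 < Lg) :
    (K * Lg) ^ K + 1 ≤ (((K + 3 : ℕ) : ℝ) * Lg) ^ (K + 3) := by
  have h0 : (0 : ℝ) ≤ K * Lg := by positivity
  have h1 : ((K + 3 : ℕ) : ℝ) * Lg = K * Lg + 3 * Lg := by push_cast; ring
  have h2 : (2 : ℝ) ≤ 3 * Lg := by linarith
  rw [h1]
  have h3 : (K * Lg) ^ K ≤ (K * Lg + 3 * Lg) ^ K := pow_le_pow_left₀ h0 (by linarith) _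
  have h4 : (1 : ℝ) ≤ (K * Lg + 3 * Lg) ^ K := one_le_pow₀ (by linarith)
  have h5 : (2 : ℝ) ≤ (K * Lg + 3 * Lg) ^ 3 := by
    have h6 : (2 : ℝ) ≤ K * Lg + 3 * Lg := by linarith
    have h7 : (2 : ℝ) ^ 3 ≤ (K * Lg + 3 * Lg) ^ 3 := pow_le_pow_left₀ (by norm_num) h6 _
    linarith
  rw [pow_add]
  nlinarith

private theorem rig_act {n m k r : ℕ} (hm : 2 ≤ m) (R : Fin r → Fin n → ZMod m)
    (W : Finset (Fin n)) (B : Fin k → Finset (Fin n)) (hBW : ∀ j, B j ⊆ W)
    (hd : ∀ i j, i ≠ j → Disjoint (B i) (B j)) (hR : ∀ j i, ∑ v ∈ B j, R i v = 0)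
    (vw : Fin n → ℕ) (a : Fin r → ZMod m) :
    ∑ j, (∑ v ∈ B j, vw v) % m ≤
      m * (W.filter fun v => (vw v : ZMod m) ≠ ∑ i, a i * R i v).card := by
  classical
  set E := W.filter fun v => (vw v : ZMod m) ≠ ∑ i, a i * R i v with hE
  have h1 : ∀ j, (∑ v ∈ B j, vw v) % m ≤ m * (B j ∩ E).card := by
    intro j
    by_cases h : (B j ∩ E).card = 0
    · rw [card_eq_zero] at h
      have h2 : ((∑ v ∈ B j, vw v : ℕ) : ZMod m) = 0 := by
        push_cast
        have h3 : ∀ v ∈ B j, (vw v : ZMod m) = ∑ i, a i * R i v := by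
          intro v hv
          by_contra h4
          have : v ∈ B j ∩ E := mem_inter.2 ⟨hv, mem_filter.2 ⟨hBW j hv, h4⟩⟩
          rw [h] at this
          exact absurd this (notMem_empty v)
        rw [sum_congr rfl h3, sum_comm]
        refine sum_eq_zero fun i _ => ?_
        rw [← mul_sum, hR j i, mul_zero]
      rw [ZMod.natCast_eq_zero_iff] at h2
      rw [Nat.mod_eq_zero_of_dvd h2]
      exact Nat.zero_le _
    · have h5 : (∑ v ∈ B j, vw v) % m < m := Nat.mod_lt _ (by omega)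
      have h6 : 1 ≤ (B j ∩ E).card := Nat.one_le_iff_ne_zero.2 h
      nlinarith
  have h7 : ∑ j, (B j ∩ E).card ≤ E.card := by
    have h8 : (univ.biUnion fun j => B j ∩ E).card = ∑ j, (B j ∩ E).card :=
      card_biUnion fun i _ j _ hij =>
        (hd i j hij).mono inter_subset_left inter_subset_left
    rw [← h8]
    apply card_le_card
    intro v hv
    obtain ⟨j, _, hj⟩ := mem_biUnion.1 hv
    exact (mem_inter.1 hj).2
  calc ∑ j, (∑ v ∈ B j, vw v) % m ≤ ∑ j, m * (B j ∩ E).card := sum_le_sum fun j _ => h1 j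
    _ = m * ∑ j, (B j ∩ E).card := (mul_sum _ _ _).symm
    _ ≤ m * E.card := Nat.mul_le_mul_left m h7

private theorem rig_gate {s m : ℕ} (hm : 2 ≤ m) (gw : Fin s → ℕ) :
    ∑ h, gw h % m ≤ m * (univ.filter fun h => (gw h : ZMod m) ≠ 0).card := by
  classical
  have h1 : ∀ h, gw h % m ≤ if (gw h : ZMod m) ≠ 0 then m else 0 := by
    intro h
    split_ifs with h2
    · exact (Nat.mod_lt _ (by omega)).le
    · rw [not_not, ZMod.natCast_eq_zero_iff] at h2
      rw [Nat.mod_eq_zero_of_dvd h2]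
  calc ∑ h, gw h % m ≤ ∑ h, if (gw h : ZMod m) ≠ 0 then m else 0 := sum_le_sum fun h _ => h1 h
    _ = m * (univ.filter fun h => (gw h : ZMod m) ≠ 0).card := by
        rw [← sum_filter, sum_const, smul_eq_mul, mul_comm]

theorem st_Rig (h1 : St_Blk) (h2 : St_Pack) : St_Rig := by
  intro p d t hp
  obtain ⟨K, hK⟩ := h1 p d t hp
  refine ⟨K + 3, fun n s f C ρ hlev hN hρ hmaj m r W R hm hsp => ?_⟩
  have hs : 1 ≤ s := Nat.lt_of_le_of_lt (Nat.zero_le _) C.out.isLt
  have hm1 : (1 : ℝ) ≤ m := by exact_mod_cast (by omega : 1 ≤ m)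
  have hlog0 : 0 ≤ Real.log (s + n) := Real.log_nonneg (by
    have : (1 : ℝ) ≤ s := by exact_mod_cast hs
    have h4 : (0 : ℝ) ≤ n := Nat.cast_nonneg n
    linarith)
  rcases Nat.eq_zero_or_pos n with hn | hn
  · have hW : W.card = 0 := by
      have h3 : W.card ≤ n := by
        calc W.card ≤ (univ : Finset (Fin n)).card := card_le_card (subset_univ _)
          _ = n := by simp
      omega
    rw [hW]
    have h5 : (0 : ℝ) ≤ (r + 1) * m ^ 2 * (m * f + 1) ^ t *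
      (((K + 3 : ℕ) : ℝ) * Real.log (s + n)) ^ (K + 3) := by positivity
    simpa using h5
  have hlog : 0.6931471803 < Real.log (s + n) := by
    have h6 : Real.log 2 ≤ Real.log (s + n) := by
      apply Real.log_le_log (by norm_num)
      have h7 : (1 : ℝ) ≤ s := by exact_mod_cast hs
      have h8 : (1 : ℝ) ≤ n := by exact_mod_cast hn
      linarith
    exact lt_of_lt_of_le Real.log_two_gt_d9 h6
  obtain ⟨k, B, hk, hB, hBW, hd, hR⟩ := h2 m r n hm W R
  have h9 := hK n s (m * f) C ρ hlev hN hρ hmaj k B hB hd (fun g M hg => by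
    obtain ⟨rfl, a, ha⟩ := hsp g M hg
    have h10 := rig_act hm R W B hBW hd hR (C.vw g) a
    have h11 := rig_gate hm (C.gw g)
    calc _ ≤ M * (W.filter fun v => (C.vw g v : ZMod M) ≠ ∑ i, a i * R i v).card +
        M * (univ.filter fun h => (C.gw g h : ZMod M) ≠ 0).card := Nat.add_le_add h10 h11
      _ = M * ((W.filter fun v => (C.vw g v : ZMod M) ≠ ∑ i, a i * R i v).card +
        (univ.filter fun h => (C.gw g h : ZMod M) ≠ 0).card) := (Nat.mul_add _ _ _).symm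
      _ ≤ M * f := Nat.mul_le_mul_left M ha)
  have h12 : (W.card : ℝ) ≤ (k + 1) * (m ^ 2 * r + 1) := by exact_mod_cast hk
  have h13 : ((m : ℝ) ^ 2 * r + 1) ≤ (r + 1) * m ^ 2 := by
    have : (1 : ℝ) ≤ (m : ℝ) ^ 2 := one_le_pow₀ hm1
    nlinarith
  have h14 : (1 : ℝ) ≤ (m * f + 1) ^ t := one_le_pow₀ (by
    have : (0 : ℝ) ≤ (m : ℝ) * f := by positivity
    linarith)
  have h15 := rig_num K (Real.log (s + n)) hlog
  push_cast at h9
  have h16 : (k : ℝ) + 1 ≤ (m * f + 1) ^ t *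
      (((K + 3 : ℕ) : ℝ) * Real.log (s + n)) ^ (K + 3) := by
    have h17 : (m * f + 1 : ℝ) ^ t * ((K * Real.log (s + n)) ^ K + 1) ≤ (m * f + 1) ^ t *
      (((K + 3 : ℕ) : ℝ) * Real.log (s + n)) ^ (K + 3) :=
      mul_le_mul_of_nonneg_left h15 (by positivity)
    rw [mul_add, mul_one] at h17
    linarith
  calc (W.card : ℝ) ≤ (k + 1) * (m ^ 2 * r + 1) := h12
    _ ≤ ((m * f + 1) ^ t * (((K + 3 : ℕ) : ℝ) * Real.log (s + n)) ^ (K + 3)) *
        ((r + 1) * m ^ 2) := by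
        apply mul_le_mul h16 h13 (by positivity) (by positivity)
    _ = _ := by ring

end Pool.Agent.RIG
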