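import Pool.Agent.RIG.Stmts
import Pool.Agent.MXC.Smol

/-!
# Smolensky's bound with different values of the variables
-/

set_option autoImplicit false

namespace Pool.Agent.RIG

open Finset Pool.Agent.RS

section dim

variable {F : Type} [Field F] {U : Type} [Fintype U] [DecidableEq U]

private theorem smol_lit_mem (a : F) (i : U) :
    (fun z : Finset U => if i ∈ z then a else 1) ∈ lowDeg F U 1 := by
  have : (fun z : Finset U => if i ∈ z then a else 1) =
      1 + (a - 1) • (fun z => if i ∈ z then (1 : F) else 0) := by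
    funext z
    by_cases h : i ∈ z <;> simp [h]
  rw [this]
  exact Submodule.add_mem _ (one_mem_lowDeg 1) (Submodule.smul_mem _ _ (mem_lit i))

omit [Fintype U] in
private theorem smol_prod_lit (a : U → F) (S z : Finset U) :
    (∏ i ∈ S, (fun z : Finset U => if i ∈ z then a i else 1)) z = ∏ i ∈ S ∩ z, a i := by
  rw [Finset.prod_apply, Finset.prod_ite, Finset.prod_const_one, mul_one]
  refine Finset.prod_congr ?_ fun _ _ => rfl
  ext i
  rw [mem_filter, mem_inter]

private theorem smol_finrank (D : ℕ) :
    Module.finrank F (lowDeg F U D) ≤ ∑ i ∈ range (D + 1), (Fintype.card U).choose i := by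
  classical
  have h1 : {f | ∃ S : Finset U, S.card ≤ D ∧ f = mono F S} =
      (((univ : Finset (Finset U)).filter fun S => S.card ≤ D).image (mono F) :
        Set (Finset U → F)) := by
    ext f
    simp only [Set.mem_ofPred_eq, coe_image, coe_filter, mem_univ, true_and, Set.mem_image]
    constructor
    · rintro ⟨S, hS, rfl⟩
      exact ⟨S, hS, rfl⟩
    · rintro ⟨S, hS, rfl⟩
      exact ⟨S, hS, rfl⟩
  unfold lowDeg
  rw [h1]
  refine (finrank_span_finset_le_card _).trans (card_image_le.trans ?_)
  have h2 : ((univ : Finset (Finset U)).filter fun S => S.card ≤ D).card =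
      ∑ i ∈ range (D + 1), (((univ : Finset (Finset U)).filter
        fun S => S.card ≤ D).filter fun S => S.card = i).card := by
    refine Finset.card_eq_sum_card_fiberwise fun S hS => ?_
    have := (mem_filter.1 hS).2
    exact mem_coe.2 (mem_range.2 (by omega))
  rw [h2]
  refine Finset.sum_le_sum fun i _ => ?_
  have h3 : (((univ : Finset (Finset U)).filter
      fun S => S.card ≤ D).filter fun S => S.card = i) ⊆ powersetCard i univ := by
    intro S hS
    rw [mem_filter] at hS
    rw [mem_powersetCard]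
    exact ⟨subset_univ _, hS.2⟩
  have h4 := card_le_card h3
  rwa [card_powersetCard, card_univ] at h4

private theorem smol_dim {D : ℕ} (ω : U → F) (h0 : ∀ i, ω i ≠ 0) (h1 : ∀ i, ω i ≠ 1)
    (P : Finset U → F) (hP : P ∈ lowDeg F U D) (A : Finset (Finset U))
    (hA : ∀ z ∈ A, P z = ∏ i ∈ z, ω i) :
    A.card ≤ ∑ i ∈ range (Fintype.card U / 2 + D + 1), (Fintype.card U).choose i := by
  classical
  let N := Fintype.card U
  let W : Submodule F (Finset U → F) :=
    { carrier := {f | ∃ g ∈ lowDeg F U (N / 2 + D), ∀ z ∈ A, f z = g z}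
      zero_mem' := ⟨0, Submodule.zero_mem _, fun _ _ => rfl⟩
      add_mem' := by
        rintro f f' ⟨g, hg, h⟩ ⟨g', hg', h'⟩
        exact ⟨g + g', Submodule.add_mem _ hg hg', fun z hz => by
          rw [Pi.add_apply, Pi.add_apply, h z hz, h' z hz]⟩
      smul_mem' := by
        rintro c f ⟨g, hg, h⟩
        exact ⟨c • g, Submodule.smul_mem _ c hg, fun z hz => by
          rw [Pi.smul_apply, Pi.smul_apply, h z hz]⟩ }
  have hW : ∀ f, f ∈ W ↔ ∃ g ∈ lowDeg F U (N / 2 + D), ∀ z ∈ A, f z = g z :=
    fun f => Iff.rfl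
  -- products of the functions ω i ^ x_i
  have c1 : ∀ S : Finset U,
      (∏ i ∈ S, (fun z : Finset U => if i ∈ z then ω i else 1)) ∈ W := by
    intro S
    rw [hW]
    by_cases hS : S.card ≤ N / 2
    · refine ⟨_, ?_, fun _ _ => rfl⟩
      have := prod_mem_lowDeg (F := F) (D := 1) S
        (fun i (z : Finset U) => if i ∈ z then ω i else 1) fun i _ => smol_lit_mem (ω i) i
      exact lowDeg_mono (by omega) this
    · refine ⟨P * ∏ i ∈ Sᶜ, (fun z : Finset U => if i ∈ z then (ω i)⁻¹ else 1), ?_, ?_⟩
      · have h2 := prod_mem_lowDeg (F := F) (D := 1) Sᶜ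
          (fun i (z : Finset U) => if i ∈ z then (ω i)⁻¹ else 1)
          fun i _ => smol_lit_mem (ω i)⁻¹ i
        have h3 := mul_mem_lowDeg hP h2
        refine lowDeg_mono ?_ h3
        rw [card_compl]
        show D + (N - S.card) * 1 ≤ N / 2 + D
        omega
      · intro z hz
        rw [Pi.mul_apply, smol_prod_lit ω S z, smol_prod_lit (fun i => (ω i)⁻¹) Sᶜ z, hA z hz,
          Finset.prod_inv_distrib]
        have h4 : ∏ i ∈ z, ω i = (∏ i ∈ S ∩ z, ω i) * ∏ i ∈ Sᶜ ∩ z, ω i := by
          rw [← prod_union]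
          · refine Finset.prod_congr ?_ fun _ _ => rfl
            ext i
            simp only [mem_union, mem_inter, mem_compl]
            tauto
          · rw [Finset.disjoint_left]
            intro i hi hi'
            rw [mem_inter] at hi hi'
            exact (mem_compl.1 hi'.1) hi.1
        rw [h4, mul_assoc, mul_inv_cancel₀ (Finset.prod_ne_zero_iff.2 fun i _ => h0 i), mul_one]
  have c2 : ∀ S : Finset U, mono F S ∈ W := by
    intro S
    have hω : ∀ i, ω i - 1 ≠ 0 := fun i => sub_ne_zero.2 (h1 i)
    have h2 : mono F S = (∏ i ∈ S, (ω i - 1)⁻¹) •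
        ∏ i ∈ S, ((fun z : Finset U => if i ∈ z then ω i else 1) +
          (fun _ => (-1 : F))) := by
      funext z
      rw [Pi.smul_apply, Finset.prod_apply, smul_eq_mul, ← Finset.prod_mul_distrib]
      unfold mono
      by_cases h : S ⊆ z
      · rw [if_pos h, Finset.prod_eq_one]
        intro i hi
        rw [Pi.add_apply, if_pos (h hi), ← sub_eq_add_neg, inv_mul_cancel₀ (hω i)]
      · rw [if_neg h]
        obtain ⟨i, hi, hiz⟩ := Finset.not_subset.1 h
        rw [Finset.prod_eq_zero hi]
        rw [Pi.add_apply, if_neg hiz]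
        ring
    rw [h2, Finset.prod_add]
    refine Submodule.smul_mem _ _ (Submodule.sum_mem _ fun T _ => ?_)
    have h3 : (∏ _i ∈ S \ T, (fun _ => (-1 : F) : Finset U → F)) =
        fun _ => (-1 : F) ^ (S \ T).card := by
      funext z
      rw [Finset.prod_apply, Finset.prod_const]
    have h4 : (∏ i ∈ T, (fun z : Finset U => if i ∈ z then ω i else 1)) *
        (∏ _i ∈ S \ T, (fun _ => (-1 : F) : Finset U → F)) =
        ((-1 : F) ^ (S \ T).card) •
          ∏ i ∈ T, (fun z : Finset U => if i ∈ z then ω i else 1) := by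
      rw [h3]
      funext z
      simp only [Pi.mul_apply, Pi.smul_apply, smul_eq_mul]
      ring
    rw [h4]
    exact Submodule.smul_mem _ _ (c1 T)
  have c3 : lowDeg F U N ≤ W := by
    refine Submodule.span_le.2 ?_
    rintro f ⟨S, _, rfl⟩
    exact c2 S
  have c4 : ∀ f, f ∈ W := by
    intro f
    have hd : ∀ z : Finset U, ∃ δ ∈ lowDeg F U N, δ z = 1 ∧
        ∀ y : Finset U, y.card ≤ N → y ≠ z → δ y = 0 :=
      fun z => exists_delta N z (card_le_univ z)
    choose δ hδ1 hδ2 hδ3 using hd
    have h2 : f = ∑ z, f z • δ z := by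
      funext y
      rw [Finset.sum_apply, Finset.sum_eq_single y]
      · rw [Pi.smul_apply, hδ2, smul_eq_mul, mul_one]
      · intro z _ hz
        rw [Pi.smul_apply, hδ3 z y (card_le_univ y) hz.symm, smul_zero]
      · intro h
        exact absurd (mem_univ y) h
    rw [h2]
    exact Submodule.sum_mem _ fun z _ => Submodule.smul_mem _ _ (c3 (hδ1 z))
  -- restriction to A
  let φ : lowDeg F U (N / 2 + D) →ₗ[F] (A → F) :=
    { toFun := fun g z => (g : Finset U → F) z
      map_add' := fun _ _ => rfl
      map_smul' := fun _ _ => rfl }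
  have hφ : Function.Surjective φ := by
    intro a
    obtain ⟨g, hg, h⟩ := (hW _).1 (c4 fun z => if hz : z ∈ A then a ⟨z, hz⟩ else 0)
    refine ⟨⟨g, hg⟩, ?_⟩
    funext z
    have h2 := h z z.2
    rw [dif_pos z.2] at h2
    exact h2.symm
  have h5 := LinearMap.finrank_le_finrank_of_surjective hφ
  rw [Module.finrank_fintype_fun_eq_card, Fintype.card_coe] at h5
  exact h5.trans (smol_finrank _)

end dim

theorem st_Smol : St_Smol := by
  intro F _ U _ _ D ω P A h0 h1 hP hN hA
  have h2 := smol_dim ω h0 h1 P hP A hA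
  have h3 := MXC.smol_sum (Fintype.card U) D hN
  omega

end Pool.Agent.RIG
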