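import Pool.Agent.RIG.Stmts

/-!
# The tail bound for a sum with random signs
-/

set_option autoImplicit false

namespace Pool.Agent.RIG

open Finset Pool.Agent.RS

section tail

variable {T : Type} [Fintype T] [DecidableEq T] (δ : T → ℤ)

private theorem tail_mgf (hδ : ∀ u, |δ u| ≤ 1) (t : ℝ) :
    ∑ ω : T → Bool, Real.exp (t * ((∑ u, if ω u = true then -δ u else δ u : ℤ) : ℝ)) ≤
      2 ^ Fintype.card T * Real.exp (t ^ 2 * Fintype.card T / 2) := by
  have h1 : ∀ ω : T → Bool,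
      Real.exp (t * ((∑ u, if ω u = true then -δ u else δ u : ℤ) : ℝ)) =
        ∏ u, Real.exp (t * ((if ω u = true then -δ u else δ u : ℤ) : ℝ)) := by
    intro ω
    rw [← Real.exp_sum, Int.cast_sum, Finset.mul_sum]
  have h2 : ∑ ω : T → Bool,
      Real.exp (t * ((∑ u, if ω u = true then -δ u else δ u : ℤ) : ℝ)) =
        ∏ u, ∑ b : Bool, Real.exp (t * ((if b = true then -δ u else δ u : ℤ) : ℝ)) := by
    rw [Finset.prod_univ_sum, Fintype.piFinset_univ]
    exact Finset.sum_congr rfl fun ω _ => h1 ω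
  rw [h2]
  have h3 : ∀ u, ∑ b : Bool, Real.exp (t * ((if b = true then -δ u else δ u : ℤ) : ℝ)) ≤
      2 * Real.exp (t ^ 2 / 2) := by
    intro u
    have h4 : ∑ b : Bool, Real.exp (t * ((if b = true then -δ u else δ u : ℤ) : ℝ)) =
        2 * Real.cosh (t * (δ u : ℝ)) := by
      rw [Fintype.sum_bool, Real.cosh_eq]
      simp only [if_true, Int.cast_neg, mul_neg]
      have : (if (false = true) then -δ u else δ u) = δ u := if_neg Bool.false_ne_true
      rw [this]
      ring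
    rw [h4]
    refine mul_le_mul_of_nonneg_left ?_ (by norm_num)
    refine (Real.cosh_le_exp_half_sq _).trans (Real.exp_le_exp.2 ?_)
    have h5 : (δ u : ℝ) ^ 2 ≤ 1 := by
      have h6 : |((δ u : ℤ) : ℝ)| ≤ 1 := by
        rw [← Int.cast_abs]
        exact_mod_cast hδ u
      rw [← sq_abs]
      nlinarith [abs_nonneg ((δ u : ℤ) : ℝ)]
    rw [mul_pow]
    nlinarith [sq_nonneg t]
  calc ∏ u, ∑ b : Bool, Real.exp (t * ((if b = true then -δ u else δ u : ℤ) : ℝ))
      ≤ ∏ _u : T, 2 * Real.exp (t ^ 2 / 2) := by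
        refine Finset.prod_le_prod (fun u _ => Finset.sum_nonneg fun b _ => (Real.exp_pos _).le)
          fun u _ => h3 u
    _ = 2 ^ Fintype.card T * Real.exp (t ^ 2 * Fintype.card T / 2) := by
        rw [Finset.prod_const, Finset.card_univ, mul_pow, ← Real.exp_nat_mul]
        congr 2
        ring

end tail

theorem st_Tail : St_Tail := by
  intro T _ _ δ ℓ w hδ hℓ hw
  set N := Fintype.card T with hN
  rcases Nat.eq_zero_or_pos N with h0 | hpos
  · have hemp : IsEmpty T := Fintype.card_eq_zero_iff.1 h0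
    have h1 : ((univ : Finset (T → Bool)).filter fun ω =>
        (w : ℤ) < |∑ u, if ω u = true then -δ u else δ u|) = ∅ := by
      rw [Finset.filter_eq_empty_iff]
      intro ω _ h
      rw [Finset.univ_eq_empty, Finset.sum_empty, abs_zero] at h
      omega
    rw [h1, Finset.card_empty, zero_mul]
    exact Nat.zero_le _
  set X : (T → Bool) → ℤ := fun ω => ∑ u, if ω u = true then -δ u else δ u with hX
  have hNR : (0 : ℝ) < (N : ℝ) := Nat.cast_pos.2 hpos
  have hwR : ((ℓ : ℝ) + 1) ^ 2 * N ≤ (w : ℝ) ^ 2 := by exact_mod_cast hw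
  set t : ℝ := w / N with ht
  have ht0 : 0 ≤ t := by positivity
  have h1 : (((univ : Finset (T → Bool)).filter fun ω => (w : ℤ) < |X ω|).card : ℝ) *
      Real.exp (t * w) ≤ 2 * (2 ^ N * Real.exp (t ^ 2 * N / 2)) := by
    have h2 := tail_mgf δ hδ t
    have h3 := tail_mgf δ hδ (-t)
    have h4 : (((univ : Finset (T → Bool)).filter fun ω => (w : ℤ) < |X ω|).card : ℝ) *
        Real.exp (t * w) ≤ ∑ ω : T → Bool,
          (Real.exp (t * ((X ω : ℤ) : ℝ)) + Real.exp (-t * ((X ω : ℤ) : ℝ))) := by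
      rw [← nsmul_eq_mul, ← Finset.sum_const]
      refine (Finset.sum_le_sum fun ω hω => ?_).trans
        (Finset.sum_le_sum_of_subset_of_nonneg (Finset.subset_univ _)
          fun ω _ _ => by positivity)
      have h5 : (w : ℤ) < |X ω| := (mem_filter.1 hω).2
      have h6 : (w : ℝ) ≤ |((X ω : ℤ) : ℝ)| := by
        rw [← Int.cast_abs]
        exact_mod_cast h5.le
      rcases abs_cases ((X ω : ℤ) : ℝ) with ⟨h7, -⟩ | ⟨h7, -⟩
      · rw [h7] at h6
        have h8 : Real.exp (t * w) ≤ Real.exp (t * ((X ω : ℤ) : ℝ)) :=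
          Real.exp_le_exp.2 (mul_le_mul_of_nonneg_left h6 ht0)
        linarith [Real.exp_pos (-t * ((X ω : ℤ) : ℝ))]
      · rw [h7] at h6
        have h8 : Real.exp (t * w) ≤ Real.exp (-t * ((X ω : ℤ) : ℝ)) := by
          refine Real.exp_le_exp.2 ?_
          have := mul_le_mul_of_nonneg_left h6 ht0
          linarith
        linarith [Real.exp_pos (t * ((X ω : ℤ) : ℝ))]
    rw [Finset.sum_add_distrib] at h4
    rw [neg_sq] at h3
    linarith
  have h2 : (2 : ℝ) ^ (ℓ + 1) ≤ Real.exp (t * w - t ^ 2 * N / 2) := by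
    have h3 : t * w - t ^ 2 * N / 2 = (w : ℝ) ^ 2 / (2 * N) := by
      rw [ht]
      field_simp
      ring
    have h4 : ((ℓ : ℝ) + 1) ^ 2 / 2 ≤ (w : ℝ) ^ 2 / (2 * N) := by
      rw [div_le_div_iff₀ (by norm_num) (by positivity)]
      nlinarith
    have h5 : (2 : ℝ) ≤ Real.exp 1 := by
      have := Real.add_one_le_exp (1 : ℝ)
      linarith
    have h6 : (2 : ℝ) ^ (ℓ + 1) ≤ Real.exp ((ℓ : ℝ) + 1) := by
      calc (2 : ℝ) ^ (ℓ + 1) ≤ Real.exp 1 ^ (ℓ + 1) := pow_le_pow_left₀ (by norm_num) h5 _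
        _ = Real.exp ((ℓ : ℝ) + 1) := by
          rw [← Real.exp_nat_mul]
          congr 1
          push_cast
          ring
    refine h6.trans (Real.exp_le_exp.2 ?_)
    rw [h3]
    have h7 : (1 : ℝ) ≤ (ℓ : ℝ) := by exact_mod_cast hℓ
    nlinarith
  have h3 : (((univ : Finset (T → Bool)).filter fun ω => (w : ℤ) < |X ω|).card : ℝ) *
      2 ^ ℓ ≤ 2 ^ N := by
    have h4 : Real.exp (t * w) =
        Real.exp (t * w - t ^ 2 * N / 2) * Real.exp (t ^ 2 * N / 2) := by
      rw [← Real.exp_add]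
      congr 1
      ring
    rw [h4] at h1
    have h5 : 0 < Real.exp (t ^ 2 * N / 2) := Real.exp_pos _
    have h6 : (((univ : Finset (T → Bool)).filter fun ω => (w : ℤ) < |X ω|).card : ℝ) *
        (2 : ℝ) ^ (ℓ + 1) ≤ 2 * 2 ^ N := by
      refine le_of_mul_le_mul_right ?_ h5
      calc (((univ : Finset (T → Bool)).filter fun ω => (w : ℤ) < |X ω|).card : ℝ) *
          (2 : ℝ) ^ (ℓ + 1) * Real.exp (t ^ 2 * N / 2)
          ≤ (((univ : Finset (T → Bool)).filter fun ω => (w : ℤ) < |X ω|).card : ℝ) *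
            Real.exp (t * w - t ^ 2 * N / 2) * Real.exp (t ^ 2 * N / 2) := by gcongr
        _ ≤ 2 * 2 ^ N * Real.exp (t ^ 2 * N / 2) := by
          rw [mul_assoc, mul_assoc]
          exact h1
    rw [pow_succ] at h6
    linarith
  exact_mod_cast h3

end Pool.Agent.RIG
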