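import Pool.Agent.RIG.Win
import Pool.Agent.RIG.Tail
import Pool.Agent.RIG.Half
import Pool.Agent.RIG.Gate
import Pool.Agent.RIG.Apx
import Pool.Agent.RIG.Smol
import Pool.Agent.RIG.Key
import Pool.Agent.RIG.Num
import Pool.Agent.RIG.Blk
import Pool.Agent.RIG.Pack
import Pool.Agent.RIG.Rig
import Pool.Agent.RIG.Loc

/-!
# Assembly
-/

set_option autoImplicit false

namespace Pool.Agent.RIG

theorem all_Blk : St_Blk :=
  st_Blk (st_Key (st_Apx (st_Gate (st_Half st_Win st_Tail))) st_Smol) st_Num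

theorem all_Loc : St_Loc := st_Loc all_Blk

theorem all_Rig : St_Rig := st_Rig all_Blk st_Pack

end Pool.Agent.RIG
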