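import Pool.Agent.RIG.Stmts2
import Pool.Agent.RIG.Apx
import Pool.Agent.RS.Razborov

/-!
# Approximation of circuits on a cube
-/

set_option autoImplicit false

namespace Pool.Agent.RIG

open Finset Pool.Agent.RS

/-! ### one gate -/

section gate

variable {p : ℕ} [Fact p.Prime] {U : Type} [Fintype U] [DecidableEq U] {n s : ℕ}

private theorem apxP_lit (φ : Fin n → U ⊕ Bool) (v : Fin n) {D : ℕ} (hD : 1 ≤ D) :
    (fun z => ind p (pt φ z v)) ∈ lowDeg (ZMod p) U D := by
  refine lowDeg_mono hD ?_
  unfold pt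
  cases hv : φ v with
  | inl j =>
    have h1 : (fun z : Finset U => ind p (Sum.elim (fun j => decide (j ∈ z)) id
        (Sum.inl j : U ⊕ Bool))) = fun z => if j ∈ z then (1 : ZMod p) else 0 := by
      funext z
      by_cases h : j ∈ z <;> simp [ind, h]
    rw [h1]
    exact mem_lit j
  | inr b => exact const_mem_lowDeg 1 (ind p b)

private theorem apxP_lit2 (j : U) {D : ℕ} (hD : 1 ≤ D) :
    (fun z : Finset U => ind p (decide (j ∈ z))) ∈ lowDeg (ZMod p) U D := by
  refine lowDeg_mono hD ?_
  have h1 : (fun z : Finset U => ind p (decide (j ∈ z))) =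
      fun z => if j ∈ z then (1 : ZMod p) else 0 := by
    funext z
    by_cases h : j ∈ z <;> simp [ind, h]
  rw [h1]
  exact mem_lit j

/-- the kind of a gate which is not special -/
private def apxP_kind (k : Kind) : RS.Kind :=
  match k with
  | Kind.nor => RS.Kind.nor
  | Kind.and => RS.Kind.and
  | Kind.or => RS.Kind.or
  | Kind.count _ A => RS.Kind.mod A

/-- the circuit with one gate -/
private def apxP_one (C : Circuit n s) (g : Fin s) : RS.Circuit (Fin n ⊕ Fin s) 1 where
  kind _ := apxP_kind (C.kind g)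
  vw _ := Sum.elim (C.vw g) (C.gw g)
  gw _ _ := 0
  level _ := 0
  level_lt _ _ h := absurd rfl h
  out := 0

private theorem apxP_one_true (C : Circuit n s) (g : Fin s) (x : Fin n → Bool)
    (val : Fin s → Bool) (val' : Fin 1 → Bool) :
    (apxP_one C g).trueInputs (Sum.elim x val) val' 0 = C.trueInputs x val g := by
  unfold RS.Circuit.trueInputs Circuit.trueInputs apxP_one
  rw [Fintype.sum_sum_type]
  simp

private theorem apxP_one_inputs (C : Circuit n s) (g : Fin s) :
    (apxP_one C g).inputs 0 = C.inputs g := by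
  unfold RS.Circuit.inputs Circuit.inputs apxP_one
  rw [Fintype.sum_sum_type]
  simp

private theorem apxP_one_fires (C : Circuit n s) (g : Fin s) (hns : ∀ M, ¬ C.Special p g M)
    (x : Fin n → Bool) (val : Fin s → Bool) (val' : Fin 1 → Bool) :
    (apxP_one C g).Fires p (Sum.elim x val) val' 0 ↔ C.Fires x val g := by
  have h1 := apxP_one_true C g x val val'
  have h2 := apxP_one_inputs C g
  unfold RS.Circuit.Fires Circuit.Fires
  rw [h1, h2]
  have h3 : (apxP_one C g).kind 0 = apxP_kind (C.kind g) := rfl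
  rw [h3]
  cases hk : C.kind g with
  | nor => exact Iff.rfl
  | and => exact Iff.rfl
  | or => exact Iff.rfl
  | count M A =>
    have h4 : M = p := by
      by_contra hM
      exact hns M ⟨hM, A, hk⟩
    subst h4
    exact Iff.rfl

/-- Gates which are not special. -/
private theorem apxP_gate_ns (C : Circuit n s) (φ : Fin n → U ⊕ Bool)
    (val : Finset U → Fin s → Bool) (hval : ∀ z, C.IsRun (pt φ z) (val z)) (g : Fin s)
    (hns : ∀ M, ¬ C.Special p g M) (ℓ : ℕ) (hℓ : 1 ≤ ℓ) :
    ∃ (G : (Fin s → ZMod p) → Finset U → ZMod p) (Bad : Finset (Finset U)),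
      Bad.card * 2 ^ ℓ ≤ 2 ^ Fintype.card U ∧
      (∀ z, z ∉ Bad → ∀ y : Fin s → ZMod p, (∀ h, C.gw g h ≠ 0 → y h = ind p (val z h)) →
        G y z = ind p (val z g)) ∧
      ∀ (D : ℕ) (y : Fin s → Finset U → ZMod p), 1 ≤ D →
        (∀ h, C.gw g h ≠ 0 → y h ∈ lowDeg (ZMod p) U D) →
        (fun z => G (fun h => y h z) z) ∈ lowDeg (ZMod p) U (8 * p * (ℓ + 1) * D) := by
  classical
  have hrun : ∀ z, (apxP_one C g).IsRun p (Sum.elim (pt φ z) (val z)) (fun _ => val z g) := by
    intro z i
    have hi : i = 0 := Subsingleton.elim _ _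
    subst hi
    exact (hval z g).trans (apxP_one_fires C g hns (pt φ z) (val z) _).symm
  obtain ⟨G, Bad, h1, h2, h3⟩ := gate_approx (p := p) (U := U) (apxP_one C g)
    (fun z => Sum.elim (pt φ z) (val z)) (fun z _ => val z g) hrun ℓ hℓ 0
  have hp2 : 2 ≤ p := (Fact.out : p.Prime).two_le
  refine ⟨fun y z => G (Sum.elim (Sum.elim (fun v => ind p (pt φ z v)) y) fun _ => 0), Bad,
    ?_, ?_, ?_⟩
  · exact (Nat.mul_le_mul_left _ (Nat.pow_le_pow_left hp2 ℓ)).trans h1
  · intro z hz y hy
    refine h2 z hz _ fun i hi => ?_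
    rcases i with (v | h) | i
    · rfl
    · exact hy h hi
    · exact absurd rfl hi
  · intro D y hD hy
    have h4 := h3 D (Sum.elim (Sum.elim (fun v z => ind p (pt φ z v)) y) fun _ => 0)
      (fun i hi => by
        rcases i with (v | h) | i
        · exact apxP_lit φ v hD
        · exact hy h hi
        · exact absurd rfl hi)
    refine lowDeg_mono (D := (p - 1) * ℓ * D) ?_ ?_
    · refine Nat.mul_le_mul_right D ?_
      calc (p - 1) * ℓ ≤ p * (ℓ + 1) := Nat.mul_le_mul (Nat.sub_le _ _) (Nat.le_succ _)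
        _ ≤ 8 * p * (ℓ + 1) := by nlinarith [Nat.zero_le (p * (ℓ + 1))]
    · have h5 : (fun z => G (Sum.elim (Sum.elim (fun v => ind p (pt φ z v)) fun h => y h z)
          fun _ => 0)) = fun z => G fun i => (Sum.elim (Sum.elim (fun v z => ind p (pt φ z v)) y)
            fun _ => 0 : (Fin n ⊕ Fin s) ⊕ Fin 1 → Finset U → ZMod p) i z := by
        funext z
        congr 1
        funext i
        rcases i with (v | h) | i <;> rfl
      rw [h5]
      exact h4

/-- the number of true inputs modulo `M` -/
private theorem apxP_mod (C : Circuit n s) (φ : Fin n → U ⊕ Bool) (g : Fin s) (M : ℕ)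
    (z : Finset U) (val : Fin s → Bool) :
    ((∑ v ∈ univ.filter (fun v => φ v = Sum.inr true), C.vw g v) +
      ∑ i : U ⊕ Fin s, if (Sum.elim (fun j => decide (j ∈ z)) val : U ⊕ Fin s → Bool) i = true
        then (Sum.elim (fun j => (∑ v ∈ univ.filter (fun v => φ v = Sum.inl j), C.vw g v) % M)
          (fun h => C.gw g h % M) : U ⊕ Fin s → ℕ) i else 0) % M =
      C.trueInputs (pt φ z) val g % M := by
  have hM : ∀ a : ℕ, a % M ≡ a [MOD M] := fun a => Nat.mod_modEq a M
  have hsum : ∀ {ι : Type} (t : Finset ι) (f f' : ι → ℕ), (∀ i ∈ t, f i ≡ f' i [MOD M]) →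
      ∑ i ∈ t, f i ≡ ∑ i ∈ t, f' i [MOD M] := by
    intro ι t f f' hf
    classical
    induction t using Finset.induction_on with
    | empty => exact Nat.ModEq.refl _
    | insert a t ha ih =>
      rw [Finset.sum_insert ha, Finset.sum_insert ha]
      exact (hf a (mem_insert_self a t)).add (ih fun i hi => hf i (mem_insert_of_mem hi))
  change _ ≡ _ [MOD M]
  rw [Fintype.sum_sum_type]
  unfold Circuit.trueInputs
  rw [← add_assoc]
  refine Nat.ModEq.add ?_ ?_
  · have h1 : ∑ v, (if pt φ z v = true then C.vw g v else 0) =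
        (∑ v ∈ univ.filter (fun v => φ v = Sum.inr true), C.vw g v) +
          ∑ j : U, if j ∈ z then ∑ v ∈ univ.filter (fun v => φ v = Sum.inl j), C.vw g v
            else 0 := by
      have h2 : ∀ v, (if pt φ z v = true then C.vw g v else 0) =
          (if φ v = Sum.inr true then C.vw g v else 0) +
            ∑ j : U, if j ∈ z then (if φ v = Sum.inl j then C.vw g v else 0) else 0 := by
        intro v
        unfold pt
        cases hv : φ v with
        | inl j =>
          rw [if_neg (by simp : ¬ (Sum.inl j : U ⊕ Bool) = Sum.inr true), zero_add,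
            Finset.sum_eq_single j]
          · by_cases hj : j ∈ z <;> simp [hj]
          · intro j' _ hj'
            by_cases hz : j' ∈ z
            · rw [if_pos hz, if_neg]
              intro h
              exact hj' (Sum.inl.inj h).symm
            · rw [if_neg hz]
          · intro h
            exact absurd (mem_univ j) h
        | inr b =>
          rw [Finset.sum_eq_zero]
          · rw [add_zero]
            cases b <;> simp
          · intro j _
            by_cases hz : j ∈ z
            · rw [if_pos hz, if_neg (by simp)]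
            · rw [if_neg hz]
      rw [Finset.sum_congr rfl fun v _ => h2 v, Finset.sum_add_distrib, Finset.sum_filter,
        Finset.sum_comm]
      congr 1
      refine Finset.sum_congr rfl fun j _ => ?_
      by_cases hz : j ∈ z
      · simp only [if_pos hz]
        rw [Finset.sum_filter]
      · simp only [if_neg hz, Finset.sum_const_zero]
    rw [h1]
    refine Nat.ModEq.add (Nat.ModEq.refl _) (hsum _ _ _ fun j _ => ?_)
    simp only [Sum.elim_inl, decide_eq_true_eq]
    by_cases hz : j ∈ z
    · rw [if_pos hz, if_pos hz]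
      exact hM _
    · rw [if_neg hz, if_neg hz]
  · refine hsum _ _ _ fun h _ => ?_
    simp only [Sum.elim_inr]
    by_cases hh : val h = true
    · rw [if_pos hh, if_pos hh]
      exact hM _
    · rw [if_neg hh, if_neg hh]

/-- Special gates. -/
private theorem apxP_gate_sp (hG : St_Gate) (C : Circuit n s) (φ : Fin n → U ⊕ Bool)
    (val : Finset U → Fin s → Bool) (hval : ∀ z, C.IsRun (pt φ z) (val z)) (g : Fin s) (M : ℕ)
    (hs : C.Special p g M) (L ℓ : ℕ) (hact : act C φ g M ≤ 2 ^ L) (hℓ : 1 ≤ ℓ) :
    ∃ (G : (Fin s → ZMod p) → Finset U → ZMod p) (Bad : Finset (Finset U)),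
      Bad.card * 2 ^ ℓ ≤ L * 2 ^ Fintype.card U ∧
      (∀ z, z ∉ Bad → ∀ y : Fin s → ZMod p, (∀ h, C.gw g h ≠ 0 → y h = ind p (val z h)) →
        G y z = ind p (val z g)) ∧
      ∀ (D : ℕ) (y : Fin s → Finset U → ZMod p), 1 ≤ D →
        (∀ h, C.gw g h ≠ 0 → y h ∈ lowDeg (ZMod p) U D) →
        (fun z => G (fun h => y h z) z) ∈ lowDeg (ZMod p) U (8 * (ℓ + 1) * rt L * D) := by
  classical
  obtain ⟨-, A, hA⟩ := hs
  let wt : U ⊕ Fin s → ℕ :=
    Sum.elim (fun j => (∑ v ∈ univ.filter (fun v => φ v = Sum.inl j), C.vw g v) % M)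
      fun h => C.gw g h % M
  let Y : Finset U → U ⊕ Fin s → Bool := fun z => Sum.elim (fun j => decide (j ∈ z)) (val z)
  let c0 : ℕ := ∑ v ∈ univ.filter (fun v => φ v = Sum.inr true), C.vw g v
  have hwt : ∑ i, wt i ≤ 2 ^ L := by
    rw [Fintype.sum_sum_type]
    exact hact
  obtain ⟨G, Bad, h1, h2, h3⟩ := hG p L ℓ (U ⊕ Fin s) U wt Y (fun c => A ((c0 + c) % M)) hwt hℓ
  refine ⟨fun y z => G (Sum.elim (fun j => ind p (decide (j ∈ z))) y), Bad, h1, ?_, ?_⟩
  · intro z hz y hy
    have h4 := h2 z hz (Sum.elim (fun j => ind p (decide (j ∈ z))) y) (fun i hi => by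
      rcases i with j | h
      · rfl
      · refine hy h fun h0 => hi ?_
        show C.gw g h % M = 0
        rw [h0, Nat.zero_mod])
    show G (Sum.elim (fun j => ind p (decide (j ∈ z))) y) = _
    rw [h4]
    have h5 := apxP_mod C φ g M z (val z)
    have h6 : (c0 + ∑ i, if Y z i = true then wt i else 0) % M =
      C.trueInputs (pt φ z) (val z) g % M := h5
    rw [h6]
    have h7 : val z g = true ↔ A (C.trueInputs (pt φ z) (val z) g % M) = true := by
      rw [hval z g]
      unfold Circuit.Fires
      rw [hA]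
    rw [Bool.eq_iff_iff.mpr h7]
  · intro D y hD hy
    have h4 := h3 D (Sum.elim (fun j z => ind p (decide (j ∈ z))) y) (fun i hi => by
      rcases i with j | h
      · exact apxP_lit2 j hD
      · refine hy h fun h0 => hi ?_
        show C.gw g h % M = 0
        rw [h0, Nat.zero_mod])
    have h5 : (fun z => G (Sum.elim (fun j => ind p (decide (j ∈ z))) fun h => y h z)) =
        fun z => G fun i => (Sum.elim (fun j z => ind p (decide (j ∈ z))) y :
          U ⊕ Fin s → Finset U → ZMod p) i z := by
      funext z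
      congr 1
      funext i
      rcases i with j | h <;> rfl
    show (fun z => G (Sum.elim (fun j => ind p (decide (j ∈ z))) fun h => y h z)) ∈ _
    rw [h5]
    exact h4

end gate

theorem st_ApxP (hG : St_Gate) : St_ApxP := by
  classical
  intro p _ U _ _ n s L ℓ C φ f F hN hact hFL hℓ
  choose val hval using fun z : Finset U => apx_exists_run C (pt φ z)
  have hp2 : 2 ≤ p := (Fact.out : p.Prime).two_le
  set a : ℕ := 16 * p * (ℓ + 1) with ha
  have ha1 : 1 ≤ a := Nat.mul_pos (Nat.mul_pos (by norm_num) (by omega)) (Nat.succ_pos _)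
  set dg : Fin s → ℕ := fun g => Nat.sqrt (a ^ (2 * (C.level g + 1)) * F g) with hdg
  -- the gates
  have hgate : ∀ g : Fin s, ∃ (G : (Fin s → ZMod p) → Finset U → ZMod p)
      (Bad : Finset (Finset U)), Bad.card * 2 ^ ℓ ≤ (L + 1) * 2 ^ Fintype.card U ∧
      (F g ≤ F C.out →
        (∀ z, z ∉ Bad → ∀ y : Fin s → ZMod p, (∀ h, C.gw g h ≠ 0 → y h = ind p (val z h)) →
          G y z = ind p (val z g)) ∧
        ∀ y : Fin s → Finset U → ZMod p,
          (∀ h, C.gw g h ≠ 0 → y h ∈ lowDeg (ZMod p) U (dg h)) →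
          (fun z => G (fun h => y h z) z) ∈ lowDeg (ZMod p) U (dg g)) := by
    intro g
    by_cases hF : F g ≤ F C.out
    · by_cases hs : ∃ M, C.Special p g M
      · obtain ⟨M, hs⟩ := hs
        obtain ⟨h4, h5⟩ := (hN g).2.2 M hs
        set L' := Nat.clog 2 (f g + 1) with hL'
        have hL1 : f g + 1 ≤ 2 ^ L' := Nat.le_pow_clog (by norm_num) _
        have hL2 : L' ≤ L := Nat.clog_le_of_le_pow (h4.trans (hF.trans hFL))
        have hL3 : 2 ^ L' ≤ 2 * (f g + 1) := by
          rcases Nat.eq_zero_or_pos (f g) with h0 | h0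
          · rw [hL', h0]
            simp
          · have h6 : 1 < f g + 1 := by omega
            have h7 := Nat.pow_pred_clog_lt_self (b := 2) (by norm_num) h6
            have h8 : 0 < L' := Nat.clog_pos (by norm_num) h6
            have h9 : 2 ^ L' = 2 * 2 ^ L'.pred := by
              rw [← pow_succ']
              congr 1
              exact (Nat.succ_pred_eq_of_pos h8).symm
            rw [h9]
            exact Nat.mul_le_mul_left _ h7.le
        have hrt : rt L' ^ 2 ≤ 4 * (f g + 1) := by
          have h6 : rt L' ^ 2 ≤ 2 * 2 ^ L' := by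
            unfold rt
            rw [← pow_mul, ← pow_succ']
            exact Nat.pow_le_pow_right (by norm_num) (by omega)
          omega
        obtain ⟨G, Bad, h1, h2, h3⟩ :=
          apxP_gate_sp hG C φ val hval g M hs L' ℓ ((hact g M hs).trans (by omega)) hℓ
        refine ⟨G, Bad, h1.trans (Nat.mul_le_mul_right _ (by omega)), fun _ => ⟨h2, ?_⟩⟩
        intro y hy
        set Q := F g / (f g + 1) with hQ
        have hQ1 : 1 ≤ Q := (Nat.one_le_div_iff (Nat.succ_pos _)).2 h4
        have hQ2 : Q * (f g + 1) ≤ F g := Nat.div_mul_le_self _ _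
        set D' := Nat.sqrt (a ^ (2 * C.level g) * Q) with hD'
        have hD1 : 1 ≤ D' := by
          rw [hD', Nat.le_sqrt]
          exact Nat.mul_pos (Nat.pow_pos (by omega)) hQ1
        have h6 := h3 D' y hD1 (fun h hh => by
          refine lowDeg_mono (Nat.sqrt_le_sqrt ?_) (hy h hh)
          refine Nat.mul_le_mul (Nat.pow_le_pow_right ha1 ?_) ?_
          · have := C.level_lt g h hh
            omega
          · rw [hQ, Nat.le_div_iff_mul_le (Nat.succ_pos _), mul_comm]
            exact h5 h hh)
        refine lowDeg_mono ?_ h6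
        rw [hdg]
        beta_reduce
        rw [Nat.le_sqrt']
        have h7 : D' ^ 2 ≤ a ^ (2 * C.level g) * Q := Nat.sqrt_le' _
        calc (8 * (ℓ + 1) * rt L' * D') ^ 2
            = (8 * (ℓ + 1)) ^ 2 * rt L' ^ 2 * D' ^ 2 := by ring
          _ ≤ (8 * (ℓ + 1)) ^ 2 * (4 * (f g + 1)) * (a ^ (2 * C.level g) * Q) :=
            Nat.mul_le_mul (Nat.mul_le_mul_left _ hrt) h7
          _ = (16 * 1 * (ℓ + 1)) ^ 2 * a ^ (2 * C.level g) * (Q * (f g + 1)) := by ring
          _ ≤ a ^ 2 * a ^ (2 * C.level g) * F g := by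
            refine Nat.mul_le_mul (Nat.mul_le_mul_right _ (Nat.pow_le_pow_left ?_ 2)) hQ2
            rw [ha]
            exact Nat.mul_le_mul_right _ (Nat.mul_le_mul_left _ (by omega))
          _ = a ^ (2 * (C.level g + 1)) * F g := by
            rw [← pow_add]
            congr 2
            ring
      · have hns : ∀ M, ¬ C.Special p g M := fun M hM => hs ⟨M, hM⟩
        obtain ⟨G, Bad, h1, h2, h3⟩ := apxP_gate_ns C φ val hval g hns ℓ hℓ
        refine ⟨G, Bad, ?_, fun _ => ⟨h2, ?_⟩⟩
        · refine h1.trans ?_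
          exact Nat.le_mul_of_pos_left _ (Nat.succ_pos _)
        · intro y hy
          set D' := Nat.sqrt (a ^ (2 * C.level g) * F g) with hD'
          have hD1 : 1 ≤ D' := by
            rw [hD', Nat.le_sqrt]
            exact Nat.mul_pos (Nat.pow_pos (by omega)) (hN g).1
          have h6 := h3 D' y hD1 (fun h hh => by
            refine lowDeg_mono (Nat.sqrt_le_sqrt ?_) (hy h hh)
            refine Nat.mul_le_mul (Nat.pow_le_pow_right ha1 ?_) ((hN g).2.1 h hh)
            have := C.level_lt g h hh
            omega)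
          refine lowDeg_mono ?_ h6
          rw [hdg]
          beta_reduce
          rw [Nat.le_sqrt']
          have h7 : D' ^ 2 ≤ a ^ (2 * C.level g) * F g := Nat.sqrt_le' _
          calc (8 * p * (ℓ + 1) * D') ^ 2
              = (8 * p * (ℓ + 1)) ^ 2 * D' ^ 2 := by ring
            _ ≤ a ^ 2 * (a ^ (2 * C.level g) * F g) := by
              refine Nat.mul_le_mul (Nat.pow_le_pow_left ?_ 2) h7
              rw [ha]
              exact Nat.mul_le_mul_right _ (Nat.mul_le_mul_right _ (by norm_num))
            _ = a ^ (2 * (C.level g + 1)) * F g := by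
              rw [← mul_assoc, ← pow_add]
              congr 2
              ring
    · exact ⟨fun _ _ => 0, ∅, by simp, fun h => absurd h hF⟩
  choose G Bad hB hGB using hgate
  have key : ∀ k : ℕ, ∃ P : Fin s → Finset U → ZMod p, ∀ g, C.level g < k →
      F g ≤ F C.out → P g ∈ lowDeg (ZMod p) U (dg g) ∧
      ∀ z, (∀ h, z ∉ Bad h) → P g z = ind p (val z g) := by
    intro k
    induction k with
    | zero => exact ⟨fun _ => 0, fun g hg => absurd hg (Nat.not_lt_zero _)⟩
    | succ k ih =>
      obtain ⟨P, hP⟩ := ih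
      refine ⟨fun g => if C.level g < k then P g else fun z => G g (fun h => P h z) z, ?_⟩
      intro g hg hρ
      by_cases h : C.level g < k
      · simp only [if_pos h]
        exact hP g h hρ
      · simp only [if_neg h]
        have hch : ∀ h, C.gw g h ≠ 0 → C.level h < k ∧ F h ≤ F C.out := fun h' hh' => by
          have h1 := C.level_lt g h' hh'
          have h2 := (hN g).2.1 h' hh'
          exact ⟨by omega, by omega⟩
        obtain ⟨h1, h2⟩ := hGB g hρ
        constructor
        · exact h2 P fun h' hh' => (hP h' (hch h' hh').1 (hch h' hh').2).1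
        · intro z hz
          exact h1 z (hz g) _ fun h' hh' => (hP h' (hch h' hh').1 (hch h' hh').2).2 z hz
  obtain ⟨P, hP⟩ := key (C.level C.out + 1)
  obtain ⟨hP1, hP2⟩ := hP C.out (Nat.lt_succ_self _) (le_refl _)
  refine ⟨dg C.out, P C.out, univ.biUnion Bad, Nat.sqrt_le' _, hP1, ?_, ?_⟩
  · calc (univ.biUnion Bad).card * 2 ^ ℓ ≤ (∑ g, (Bad g).card) * 2 ^ ℓ :=
        Nat.mul_le_mul_right _ Finset.card_biUnion_le
      _ = ∑ g, (Bad g).card * 2 ^ ℓ := Finset.sum_mul _ _ _
      _ ≤ ∑ _g : Fin s, (L + 1) * 2 ^ Fintype.card U := Finset.sum_le_sum fun g _ => hB g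
      _ = s * (L + 1) * 2 ^ Fintype.card U := by
        rw [Finset.sum_const, card_univ, Fintype.card_fin, smul_eq_mul, mul_assoc]
  · intro z hz
    have hz' : ∀ h, z ∉ Bad h := fun h hh => hz (mem_biUnion.mpr ⟨h, mem_univ h, hh⟩)
    have h1 := hP2 z hz'
    have h2 := apx_accepts_iff (hval z)
    constructor
    · intro h
      rw [h1, h2.mp h]
      rfl
    · intro h
      rw [h1]
      have : val z C.out ≠ true := fun h' => h (h2.mpr h')
      simp [ind, this]

end Pool.Agent.RIG
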