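import Pool.Agent.RIG.Stmts2

/-!
# BlkP: the theorem for blocks, second form
-/

set_option autoImplicit false

namespace Pool.Agent.RIG

open Finset

private theorem blkP_card {n k : ℕ} (B : Fin k → Finset (Fin n)) (hB : ∀ j, (B j).Nonempty)
    (S : Finset (Fin k)) : S.card ≤ ∑ j ∈ S, (B j).card := by
  calc S.card = ∑ j ∈ S, 1 := by simp
    _ ≤ ∑ j ∈ S, (B j).card := sum_le_sum fun j _ => (hB j).card_pos

private theorem blkP_sum {n k : ℕ} (B : Fin k → Finset (Fin n))
    (hd : ∀ i j, i ≠ j → Disjoint (B i) (B j)) : ∑ j, (B j).card ≤ n := by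
  have h1 : (univ.biUnion B).card = ∑ j, (B j).card :=
    card_biUnion fun i _ j _ hij => hd i j hij
  rw [← h1]
  calc (univ.biUnion B).card ≤ (univ : Finset (Fin n)).card := card_le_card (subset_univ _)
    _ = n := by simp

private theorem blkP_half {n k : ℕ} (B : Fin k → Finset (Fin n))
    (hd : ∀ i j, i ≠ j → Disjoint (B i) (B j)) :
    ∃ S : Finset (Fin k), k ≤ 2 * S.card + 1 ∧ 2 * ∑ j ∈ S, (B j).card ≤ n := by
  obtain ⟨S, -, hS⟩ := exists_subset_card_eq (s := (univ : Finset (Fin k))) (n := k / 2)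
    (by rw [card_univ, Fintype.card_fin]; exact Nat.div_le_self k 2)
  have h1 : ∑ j ∈ S, (B j).card + ∑ j ∈ Sᶜ, (B j).card = ∑ j, (B j).card :=
    sum_add_sum_compl S _
  have h2 := blkP_sum B hd
  have h3 : Sᶜ.card = k - k / 2 := by rw [card_compl, Fintype.card_fin, hS]
  by_cases h : ∑ j ∈ S, (B j).card ≤ ∑ j ∈ Sᶜ, (B j).card
  · exact ⟨S, by omega, by omega⟩
  · exact ⟨Sᶜ, by omega, by omega⟩

private theorem blkP_sub {k : ℕ} (S : Finset (Fin k)) (G : Fin k → ℕ) :
    ∑ j : {j // j ∈ S}, G j ≤ ∑ j, G j := by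
  rw [sum_coe_sort S G]
  exact sum_le_sum_of_subset (subset_univ S)

private theorem blkP_sq (D X : ℕ) (hX : 1 ≤ X) (hD : D ^ 2 ≤ X) : (D + 1) ^ 2 ≤ 4 * X := by
  have h : (D + 1) ^ 2 ≤ 2 * D ^ 2 + 2 := by
    zify
    nlinarith [sq_nonneg ((D : ℤ) - 1)]
  omega

theorem st_BlkP (h1 : St_KeyP) (h2 : St_NumP) : St_BlkP := by
  intro p d hp
  haveI : Fact p.Prime := ⟨hp⟩
  obtain ⟨K, hK2, hK⟩ := h2 p d hp.two_le
  refine ⟨K, fun n s C f F hlev hP hmaj k B hB hd hact => ?_⟩
  have hs : 1 ≤ s := Nat.lt_of_le_of_lt (Nat.zero_le _) C.out.isLt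
  have hF : 1 ≤ F C.out := (hP C.out).1
  have hkn : k ≤ n := by
    have h3 := blkP_card B hB univ
    rw [card_univ, Fintype.card_fin] at h3
    exact h3.trans (blkP_sum B hd)
  have hlog0 : 0 ≤ Real.log (s + n) := Real.log_nonneg (by
    have : (1 : ℝ) ≤ s := by exact_mod_cast hs
    have h4 : (0 : ℝ) ≤ n := Nat.cast_nonneg n
    linarith)
  rcases Nat.eq_zero_or_pos n with hn | hn
  · have : k = 0 := by omega
    subst this
    have h5 : (0 : ℝ) ≤ F C.out * ((K : ℝ) * Real.log (s + n)) ^ K := by positivity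
    simpa using h5
  by_cases hf : F C.out ≤ n
  · refine hK n s (F C.out) k hn hs hkn hF hf fun L ℓ hL hl hns => ?_
    obtain ⟨S, hS1, hS2⟩ := blkP_half B hd
    obtain ⟨D, hD1, hD2⟩ := h1 p {j // j ∈ S} n s L ℓ C f F (fun j => B j) hP hmaj
      (fun j => hB j) (fun i j hij => hd i j fun h => hij (Subtype.ext h))
      (by
        have h13 : ∑ j : {j // j ∈ S}, (B j).card = ∑ j ∈ S, (B j).card :=
          sum_coe_sort S fun j => (B j).card
        rw [h13]
        exact hS2)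
      (fun g M hg => by
        refine le_trans ?_ (hact g M hg)
        exact Nat.add_le_add_right (blkP_sub S fun j => (∑ v ∈ B j, C.vw g v) % M) _)
      hL hl hns
    rw [Fintype.card_coe] at hD2
    have hb : 1 ≤ 16 * p * (ℓ + 1) := by
      have := hp.pos
      exact Nat.one_le_iff_ne_zero.2 (by positivity)
    have h14 : D ^ 2 ≤ (16 * p * (ℓ + 1)) ^ (2 * d) * F C.out :=
      hD1.trans (Nat.mul_le_mul_right _ (Nat.pow_le_pow_right hb (by omega)))
    have h15 : 1 ≤ (16 * p * (ℓ + 1)) ^ (2 * d) * F C.out :=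
      Nat.mul_pos (Nat.pow_pos hb) hF
    have h16 := blkP_sq D _ h15 h14
    have h17 : 800 * (16 * p * (ℓ + 1)) ^ (2 * d) * F C.out =
        200 * (4 * ((16 * p * (ℓ + 1)) ^ (2 * d) * F C.out)) := by ring
    rw [h17]
    omega
  · have hlog : 1 ≤ (K : ℝ) * Real.log (s + n) := by
      have h6 : Real.log 2 ≤ Real.log (s + n) := by
        apply Real.log_le_log (by norm_num)
        have h7 : (1 : ℝ) ≤ s := by exact_mod_cast hs
        have h8 : (1 : ℝ) ≤ n := by exact_mod_cast hn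
        linarith
      have h9 : (2 : ℝ) ≤ (K : ℝ) := by exact_mod_cast hK2
      have h10 : (0.6931471803 : ℝ) < Real.log 2 := Real.log_two_gt_d9
      nlinarith
    have hone : (1 : ℝ) ≤ ((K : ℝ) * Real.log (s + n)) ^ K := one_le_pow₀ hlog
    have h19 : (k : ℝ) ≤ F C.out := by
      have : k ≤ F C.out := by omega
      exact_mod_cast this
    calc (k : ℝ) ≤ F C.out * 1 := by rw [mul_one]; exact h19
      _ ≤ _ := mul_le_mul_of_nonneg_left hone (Nat.cast_nonneg _)

end Pool.Agent.RIG
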