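import Pool.Agent.RIG.Stmts2

/-!
# The numerical part, second form
-/

set_option autoImplicit false

namespace Pool.Agent.RIG

theorem st_NumP : St_NumP := by
  intro p d hp
  refine ⟨1600 + 256 * p + 2 * d + 1, by omega, ?_⟩
  intro n s F k hn hs hk hF hFn h
  obtain ⟨L, hLd⟩ : ∃ L, L = Nat.clog 2 F := ⟨_, rfl⟩
  obtain ⟨l, hld⟩ : ∃ l, l = Nat.clog 2 (4 * n * s * (L + 1)) := ⟨_, rfl⟩
  have hL : F ≤ 2 ^ L := by
    rw [hLd]
    exact Nat.le_pow_clog one_lt_two F
  have hL3 : 2 ^ L ≤ 2 * n := by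
    by_cases hf1 : F ≤ 1
    · have h1 : L = 0 := by
        rw [hLd]
        exact Nat.clog_of_right_le_one hf1 2
      rw [h1, pow_zero]
      omega
    · have h1 : 2 ^ (L - 1) < F := by
        rw [hLd]
        exact Nat.pow_pred_clog_lt_self one_lt_two (by omega)
      have h2 : 1 ≤ L := by
        by_contra h3
        have h4 : L = 0 := by omega
        rw [h4, pow_zero] at hL
        omega
      have h3 : 2 ^ L = 2 * 2 ^ (L - 1) := by
        conv_lhs => rw [show L = (L - 1) + 1 by omega]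
        rw [pow_succ, mul_comm]
      omega
  have hLn : L + 1 ≤ 2 * n := (Nat.lt_two_pow_self (n := L)).trans_le hL3
  have hX : 4 ≤ 4 * n * s * (L + 1) := by
    have h1 : 1 ≤ n * s := Nat.mul_pos hn hs
    have h2 : 1 ≤ n * s * (L + 1) := Nat.mul_pos h1 (Nat.succ_pos L)
    calc 4 = 4 * 1 := rfl
      _ ≤ 4 * (n * s * (L + 1)) := Nat.mul_le_mul_left 4 h2
      _ = _ := by ring
  have hl : 4 * n * s * (L + 1) ≤ 2 ^ l := by
    rw [hld]
    exact Nat.le_pow_clog one_lt_two _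
  have hl1 : 1 ≤ l := by
    by_contra h3
    have h4 : l = 0 := by omega
    rw [h4, pow_zero] at hl
    omega
  have hl2 : 2 ^ (l - 1) < 4 * n * s * (L + 1) := by
    rw [hld]
    exact Nat.pow_pred_clog_lt_self one_lt_two (by omega)
  have hk2 := h L l hL hl1 hl
  -- the logarithm
  set lg : ℝ := Real.log (s + n) with hlg
  have hsn : (2 : ℝ) ≤ s + n := by
    have h1 : (1 : ℝ) ≤ s := by exact_mod_cast hs
    have h2 : (1 : ℝ) ≤ n := by exact_mod_cast hn
    linarith
  have hlog2 : (1 / 2 : ℝ) < Real.log 2 := by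
    have := Real.log_two_gt_d9
    linarith
  have hlg2 : Real.log 2 ≤ lg := Real.log_le_log (by norm_num) hsn
  have hl3 : ((l : ℝ) + 1) ≤ 16 * lg := by
    have h1 : 4 * n * s * (L + 1) ≤ (s + n) ^ 6 := by
      have e1 : n ≤ s + n := by omega
      have e2 : s ≤ s + n := by omega
      have e3 : 2 ≤ s + n := by omega
      calc 4 * n * s * (L + 1) ≤ 4 * n * s * (2 * n) := Nat.mul_le_mul_left _ hLn
        _ = (2 * 2 * 2) * (n * s * n) := by ring
        _ ≤ ((s + n) * (s + n) * (s + n)) * ((s + n) * (s + n) * (s + n)) :=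
            Nat.mul_le_mul (Nat.mul_le_mul (Nat.mul_le_mul e3 e3) e3)
              (Nat.mul_le_mul (Nat.mul_le_mul e1 e2) e1)
        _ = _ := by ring
    have h2 : (2 : ℝ) ^ (l - 1) ≤ (s + n) ^ 6 := by exact_mod_cast (hl2.le.trans h1)
    have h3 : ((l - 1 : ℕ) : ℝ) * Real.log 2 ≤ 6 * lg := by
      have h4 := Real.log_le_log (by positivity) h2
      rw [Real.log_pow, Real.log_pow] at h4
      push_cast at h4 ⊢
      exact h4
    have h5 : ((l - 1 : ℕ) : ℝ) = (l : ℝ) - 1 := by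
      rw [Nat.cast_sub hl1, Nat.cast_one]
    rw [h5] at h3
    have h6 : (1 : ℝ) ≤ l := by exact_mod_cast hl1
    nlinarith
  have hlg0 : 0 ≤ lg := by linarith
  -- the bound
  have hk3 : (k : ℝ) ≤ 800 * (256 * p * lg) ^ (2 * d) * F := by
    have h1 : (k : ℝ) ≤ 800 * (16 * p * (l + 1)) ^ (2 * d) * F := by
      exact_mod_cast hk2
    have h6 : (16 * p * (l + 1) : ℝ) ^ (2 * d) ≤ (256 * p * lg) ^ (2 * d) := by
      refine pow_le_pow_left₀ (by positivity) ?_ _
      have h7 : (0 : ℝ) ≤ 16 * p := by positivity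
      nlinarith [mul_le_mul_of_nonneg_left hl3 h7]
    refine h1.trans (mul_le_mul_of_nonneg_right ?_ (by positivity))
    exact mul_le_mul_of_nonneg_left h6 (by norm_num)
  refine hk3.trans ?_
  set K : ℕ := 1600 + 256 * p + 2 * d + 1 with hK
  have hK1 : (1600 : ℝ) ≤ K := by
    rw [hK]
    push_cast
    have : (0 : ℝ) ≤ 256 * p + 2 * d + 1 := by positivity
    linarith
  have hK2 : (256 * p : ℝ) ≤ K := by
    rw [hK]
    push_cast
    have : (0 : ℝ) ≤ 1600 + 2 * d + 1 := by positivity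
    linarith
  have hK3 : 800 ≤ (K : ℝ) * lg := by nlinarith
  have hK4 : 1 ≤ (K : ℝ) * lg := by linarith
  have e1 : ((K : ℝ) * lg) ^ K = ((K : ℝ) * lg) ^ (2 * d) * ((K : ℝ) * lg) ^ (K - 2 * d) := by
    rw [← pow_add]
    congr 1
    omega
  have e2 : 800 ≤ ((K : ℝ) * lg) ^ (K - 2 * d) := by
    refine hK3.trans ?_
    calc (K : ℝ) * lg = ((K : ℝ) * lg) ^ 1 := (pow_one _).symm
      _ ≤ _ := pow_le_pow_right₀ hK4 (by omega)
  have e3 : (256 * p * lg : ℝ) ^ (2 * d) ≤ ((K : ℝ) * lg) ^ (2 * d) :=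
    pow_le_pow_left₀ (by positivity) (mul_le_mul_of_nonneg_right hK2 hlg0) _
  rw [e1]
  calc 800 * (256 * p * lg) ^ (2 * d) * (F : ℝ) =
        F * ((256 * p * lg) ^ (2 * d) * 800) := by ring
    _ ≤ F * (((K : ℝ) * lg) ^ (2 * d) * ((K : ℝ) * lg) ^ (K - 2 * d)) := by
        refine mul_le_mul_of_nonneg_left ?_ (by positivity)
        exact mul_le_mul e3 e2 (by positivity) (by positivity)

end Pool.Agent.RIG
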