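import Pool.Agent.RIG.Win
import Pool.Agent.RIG.Tail
import Pool.Agent.RIG.Half
import Pool.Agent.RIG.Gate
import Pool.Agent.RIG.Smol
import Pool.Agent.RIG.ApxP
import Pool.Agent.RIG.KeyP
import Pool.Agent.RIG.NumP
import Pool.Agent.RIG.BlkP
import Pool.Agent.RIG.LocP

/-!
# Assembly, second form
-/

set_option autoImplicit false

namespace Pool.Agent.RIG

theorem all_BlkP : St_BlkP :=
  st_BlkP (st_KeyP (st_ApxP (st_Gate (st_Half st_Win st_Tail))) st_Smol) st_NumP

theorem all_LocP : St_LocP := st_LocP all_BlkP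

end Pool.Agent.RIG
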