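import Mathlib

/-!
# Constant depth circuits with counting gates of arbitrary moduli
-/

set_option autoImplicit false

namespace Pool.Agent.RIG

open Finset

/-- Kinds of gates: NOR (which is NOT for one input), AND, OR, and counting gates, which apply an
arbitrary Boolean function to the number of true inputs modulo `M` (for `M = 0`, to the number of
true inputs). -/
inductive Kind : Type
  | nor : Kind
  | and : Kind
  | or : Kind
  | count (M : ℕ) (A : ℕ → Bool) : Kind

/-- A circuit with `s` gates of unbounded fan-in in `n` variables. Variable `v` is an input of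
gate `g` with multiplicity `vw g v`, gate `h` with multiplicity `gw g h`. The gates that feed a gate
have smaller level. -/
structure Circuit (n s : ℕ) where
  kind : Fin s → Kind
  vw : Fin s → Fin n → ℕ
  gw : Fin s → Fin s → ℕ
  level : Fin s → ℕ
  level_lt : ∀ g h, gw g h ≠ 0 → level h < level g
  out : Fin s

namespace Circuit

variable {n s : ℕ}

/-- The number of true inputs of gate `g`, with multiplicity. -/
def trueInputs (C : Circuit n s) (x : Fin n → Bool) (val : Fin s → Bool) (g : Fin s) : ℕ :=
  (∑ v, if x v = true then C.vw g v else 0) + ∑ h, if val h = true then C.gw g h else 0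

/-- The number of inputs of gate `g`, with multiplicity. -/
def inputs (C : Circuit n s) (g : Fin s) : ℕ := (∑ v, C.vw g v) + ∑ h, C.gw g h

/-- The condition for the output of gate `g` to be true. -/
def Fires (C : Circuit n s) (x : Fin n → Bool) (val : Fin s → Bool) (g : Fin s) : Prop :=
  match C.kind g with
  | Kind.nor => C.trueInputs x val g = 0
  | Kind.and => C.trueInputs x val g = C.inputs g
  | Kind.or => 0 < C.trueInputs x val g
  | Kind.count M A => A (C.trueInputs x val g % M) = true

/-- `val` is the family of values of the gates on input `x`. -/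
def IsRun (C : Circuit n s) (x : Fin n → Bool) (val : Fin s → Bool) : Prop :=
  ∀ g, val g = true ↔ C.Fires x val g

/-- The circuit accepts `x`. -/
def Accepts (C : Circuit n s) (x : Fin n → Bool) : Prop :=
  ∃ val : Fin s → Bool, C.IsRun x val ∧ val C.out = true

/-- The circuit computes the majority of its variables. -/
def Majority (C : Circuit n s) : Prop :=
  ∀ x : Fin n → Bool, C.Accepts x ↔ n ≤ 2 * (univ.filter fun v => x v = true).card

/-- The gate `g` is a counting gate with modulus `M ≠ p`. -/
def Special (p : ℕ) (C : Circuit n s) (g : Fin s) (M : ℕ) : Prop :=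
  M ≠ p ∧ ∃ A, C.kind g = Kind.count M A

/-- Every path that ends in the gate `g` contains at most `ρ g` counting gates with a modulus
different from `p` (including `g`). -/
def Nested (p : ℕ) (C : Circuit n s) (ρ : Fin s → ℕ) : Prop :=
  ∀ g, (∀ h, C.gw g h ≠ 0 → ρ h ≤ ρ g) ∧
    ∀ M, C.Special p g M → 1 ≤ ρ g ∧ ∀ h, C.gw g h ≠ 0 → ρ h + 1 ≤ ρ g

end Circuit

end Pool.Agent.RIG
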