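import Pool.Agent.RIG.Defs
import Pool.Agent.RS.Approx

/-!
# Statements of the modules

Every `St_X` is proved in its own file `X.lean` as `theorem st_X : St_X` (possibly from other
`St_Y`, as `theorem st_X (h : St_Y) : St_X`).
-/

set_option autoImplicit false

namespace Pool.Agent.RIG

open Finset Pool.Agent.RS

/-- a power of two which is at least the square root of `2 ^ L` -/
def rt (L : ℕ) : ℕ := 2 ^ ((L + 1) / 2)

/-- Win: on a window of length `D`, every function of a natural number is a combination of the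
binomial coefficients `S.choose j`, `j ≤ D`. -/
def St_Win : Prop :=
  ∀ (F : Type) [Field F] (a D : ℕ) (g : ℕ → F), ∃ b : ℕ → F, ∀ S, a ≤ S → S ≤ a + D →
    ∑ j ∈ range (D + 1), b j * ((S.choose j : ℕ) : F) = g S

/-- Tail: the tail bound for a sum with random signs. -/
def St_Tail : Prop :=
  ∀ (T : Type) [Fintype T] [DecidableEq T] (δ : T → ℤ) (ℓ w : ℕ), (∀ u, |δ u| ≤ 1) → 1 ≤ ℓ →
    (ℓ + 1) ^ 2 * Fintype.card T ≤ w ^ 2 →
    ((univ : Finset (T → Bool)).filter fun ω =>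
      (w : ℤ) < |∑ u, if ω u = true then -δ u else δ u|).card * 2 ^ ℓ ≤ 2 ^ Fintype.card T

/-- Half: polynomials of low degree for the number of true wires among `2 ^ L` wires (repeated
halving). Outside of a small set of points, `P c` says whether exactly `c` wires are true. -/
def St_Half : Prop :=
  ∀ (p : ℕ) [Fact p.Prime] (L ℓ : ℕ) (I U : Type) [Fintype I] [DecidableEq I] [Fintype U]
    [DecidableEq U] (Y : Finset U → I → Bool), Fintype.card I = 2 ^ L → 1 ≤ ℓ →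
    ∃ (P : ℕ → (I → ZMod p) → ZMod p) (Bad : Finset (Finset U)),
      Bad.card * 2 ^ ℓ ≤ L * 2 ^ Fintype.card U ∧
      (∀ z, z ∉ Bad → ∀ c, P c (fun i => ind p (Y z i)) =
        if (univ.filter fun i => Y z i = true).card = c then 1 else 0) ∧
      ∀ (c D : ℕ) (y : I → Finset U → ZMod p), (∀ i, y i ∈ lowDeg (ZMod p) U D) →
        (fun z => P c fun i => y i z) ∈
          lowDeg (ZMod p) U ((1 + 2 * (ℓ + 1) * ∑ i ∈ range L, rt i) * D)

/-- Gate: one counting gate of total weight at most `2 ^ L` is approximated by a polynomial. -/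
def St_Gate : Prop :=
  ∀ (p : ℕ) [Fact p.Prime] (L ℓ : ℕ) (I U : Type) [Fintype I] [DecidableEq I] [Fintype U]
    [DecidableEq U] (wt : I → ℕ) (Y : Finset U → I → Bool) (A : ℕ → Bool),
    ∑ i, wt i ≤ 2 ^ L → 1 ≤ ℓ →
    ∃ (G : (I → ZMod p) → ZMod p) (Bad : Finset (Finset U)),
      Bad.card * 2 ^ ℓ ≤ L * 2 ^ Fintype.card U ∧
      (∀ z, z ∉ Bad → ∀ y : I → ZMod p, (∀ i, wt i ≠ 0 → y i = ind p (Y z i)) →
        G y = ind p (A (∑ i, if Y z i = true then wt i else 0))) ∧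
      ∀ (D : ℕ) (y : I → Finset U → ZMod p), (∀ i, wt i ≠ 0 → y i ∈ lowDeg (ZMod p) U D) →
        (fun z => G fun i => y i z) ∈ lowDeg (ZMod p) U (8 * (ℓ + 1) * rt L * D)

/-- The input of the circuit at the point `z` of the cube: the variable `v` is `j ∈ z` if
`φ v = Sum.inl j`, and the constant `b` if `φ v = Sum.inr b`. -/
def pt {n : ℕ} {U : Type} [DecidableEq U] (φ : Fin n → U ⊕ Bool) (z : Finset U) : Fin n → Bool :=
  fun v => Sum.elim (fun j => decide (j ∈ z)) id (φ v)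

/-- The weight of the gate `g` modulo `M` after the substitution `φ`. -/
def act {n s : ℕ} {U : Type} [Fintype U] [DecidableEq U] (C : Circuit n s) (φ : Fin n → U ⊕ Bool)
    (g : Fin s) (M : ℕ) : ℕ :=
  ∑ j : U, (∑ v ∈ univ.filter fun v => φ v = Sum.inl j, C.vw g v) % M + ∑ h, C.gw g h % M

/-- Apx: approximation of circuits on a cube. -/
def St_Apx : Prop :=
  ∀ (p : ℕ) [Fact p.Prime] (U : Type) [Fintype U] [DecidableEq U] (n s L ℓ : ℕ)
    (C : Circuit n s) (φ : Fin n → U ⊕ Bool) (ρ : Fin s → ℕ), C.Nested p ρ →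
    (∀ g M, C.Special p g M → ρ g ≤ ρ C.out → act C φ g M ≤ 2 ^ L) → 1 ≤ ℓ →
    ∃ (P : Finset U → ZMod p) (E : Finset (Finset U)),
      P ∈ lowDeg (ZMod p) U ((8 * p * (ℓ + 1)) ^ (C.level C.out + 1) * rt L ^ ρ C.out) ∧
      E.card * 2 ^ ℓ ≤ s * (L + 1) * 2 ^ Fintype.card U ∧
      ∀ z, z ∉ E → (C.Accepts (pt φ z) → P z = 1) ∧ (¬ C.Accepts (pt φ z) → P z = 0)

/-- Smol: Smolensky's bound with different values of the variables. -/
def St_Smol : Prop :=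
  ∀ (F : Type) [Field F] (U : Type) [Fintype U] [DecidableEq U] (D : ℕ) (ω : U → F)
    (P : Finset U → F) (A : Finset (Finset U)), (∀ i, ω i ≠ 0) → (∀ i, ω i ≠ 1) →
    P ∈ lowDeg F U D → 100 * (D + 1) ^ 2 ≤ Fintype.card U → (∀ z ∈ A, P z = ∏ i ∈ z, ω i) →
    10 * A.card ≤ 7 * 2 ^ Fintype.card U

/-- Key: the bound for the number of blocks, without constants. -/
def St_Key : Prop :=
  ∀ (p : ℕ) [Fact p.Prime] (U : Type) [Fintype U] [DecidableEq U] (n s L ℓ : ℕ)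
    (C : Circuit n s) (ρ : Fin s → ℕ) (B : U → Finset (Fin n)), C.Nested p ρ → C.Majority →
    (∀ j, (B j).Nonempty) → (∀ i j, i ≠ j → Disjoint (B i) (B j)) →
    2 * ∑ j, (B j).card ≤ n →
    (∀ g M, C.Special p g M → ρ g ≤ ρ C.out →
      ∑ j, (∑ v ∈ B j, C.vw g v) % M + ∑ h, C.gw g h % M ≤ 2 ^ L) →
    1 ≤ ℓ → 4 * n * s * (L + 1) ≤ 2 ^ ℓ →
    Fintype.card U <
      100 * ((8 * p * (ℓ + 1)) ^ (C.level C.out + 1) * rt L ^ ρ C.out + 1) ^ 2

/-- Num: the numerical part. -/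
def St_Num : Prop :=
  ∀ p d t : ℕ, 2 ≤ p → ∃ K : ℕ, ∀ n s f k : ℕ, 1 ≤ n → 1 ≤ s → k ≤ n → f ≤ n →
    (∀ L ℓ : ℕ, f ≤ 2 ^ L → 1 ≤ ℓ → 4 * n * s * (L + 1) ≤ 2 ^ ℓ →
      k ≤ 200 * ((8 * p * (ℓ + 1)) ^ d * rt L ^ t + 1) ^ 2) →
    (k : ℝ) ≤ (f + 1) ^ t * (K * Real.log (s + n)) ^ K

/-- Blk: the theorem for blocks. -/
def St_Blk : Prop :=
  ∀ p d t : ℕ, p.Prime → ∃ K : ℕ, ∀ (n s f : ℕ) (C : Circuit n s) (ρ : Fin s → ℕ),
    C.level C.out + 1 ≤ d → C.Nested p ρ → ρ C.out ≤ t → C.Majority →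
    ∀ (k : ℕ) (B : Fin k → Finset (Fin n)), (∀ j, (B j).Nonempty) →
      (∀ i j, i ≠ j → Disjoint (B i) (B j)) →
      (∀ g M, C.Special p g M →
        ∑ j, (∑ v ∈ B j, C.vw g v) % M + ∑ h, C.gw g h % M ≤ f) →
      (k : ℝ) ≤ (f + 1) ^ t * (K * Real.log (s + n)) ^ K

/-- Pack: disjoint blocks on which `r` linear sums vanish. -/
def St_Pack : Prop :=
  ∀ (m r n : ℕ), 2 ≤ m → ∀ (W : Finset (Fin n)) (R : Fin r → Fin n → ZMod m),
    ∃ (k : ℕ) (B : Fin k → Finset (Fin n)), W.card ≤ (k + 1) * (m ^ 2 * r + 1) ∧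
      (∀ j, (B j).Nonempty) ∧ (∀ j, B j ⊆ W) ∧ (∀ i j, i ≠ j → Disjoint (B i) (B j)) ∧
      ∀ j i, ∑ v ∈ B j, R i v = 0

/-- Rig: the theorem on rigidity. -/
def St_Rig : Prop :=
  ∀ p d t : ℕ, p.Prime → ∃ K : ℕ, ∀ (n s f : ℕ) (C : Circuit n s) (ρ : Fin s → ℕ),
    C.level C.out + 1 ≤ d → C.Nested p ρ → ρ C.out ≤ t → C.Majority →
    ∀ (m r : ℕ) (W : Finset (Fin n)) (R : Fin r → Fin n → ZMod m), 2 ≤ m →
      (∀ g M, C.Special p g M → M = m ∧ ∃ a : Fin r → ZMod m,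
        (W.filter fun v => (C.vw g v : ZMod m) ≠ ∑ i, a i * R i v).card +
          (univ.filter fun h => (C.gw g h : ZMod m) ≠ 0).card ≤ f) →
      (W.card : ℝ) ≤ (r + 1) * m ^ 2 * (m * f + 1) ^ t * (K * Real.log (s + n)) ^ K

end Pool.Agent.RIG
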