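import Pool.Agent.RIG.Stmts

/-!
# Statements of the modules, second form: products along paths
-/

set_option autoImplicit false

namespace Pool.Agent.RIG

open Finset Pool.Agent.RS

/-- Every path that ends in the gate `g` has product at most `F g`, where a gate `h` of the path
counts as `f h + 1` if it is a counting gate with a modulus different from `p`, and as `1`
otherwise. -/
def Circuit.PathBound {n s : ℕ} (p : ℕ) (C : Circuit n s) (f F : Fin s → ℕ) : Prop :=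
  ∀ g, 1 ≤ F g ∧ (∀ h, C.gw g h ≠ 0 → F h ≤ F g) ∧
    ∀ M, C.Special p g M → f g + 1 ≤ F g ∧ ∀ h, C.gw g h ≠ 0 → (f g + 1) * F h ≤ F g

/-- ApxP: approximation of circuits on a cube. -/
def St_ApxP : Prop :=
  ∀ (p : ℕ) [Fact p.Prime] (U : Type) [Fintype U] [DecidableEq U] (n s L ℓ : ℕ)
    (C : Circuit n s) (φ : Fin n → U ⊕ Bool) (f F : Fin s → ℕ), C.PathBound p f F →
    (∀ g M, C.Special p g M → act C φ g M ≤ f g) → F C.out ≤ 2 ^ L → 1 ≤ ℓ →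
    ∃ (D : ℕ) (P : Finset U → ZMod p) (E : Finset (Finset U)),
      D ^ 2 ≤ (16 * p * (ℓ + 1)) ^ (2 * (C.level C.out + 1)) * F C.out ∧
      P ∈ lowDeg (ZMod p) U D ∧
      E.card * 2 ^ ℓ ≤ s * (L + 1) * 2 ^ Fintype.card U ∧
      ∀ z, z ∉ E → (C.Accepts (pt φ z) → P z = 1) ∧ (¬ C.Accepts (pt φ z) → P z = 0)

/-- KeyP: the bound for the number of blocks, without constants. -/
def St_KeyP : Prop :=
  ∀ (p : ℕ) [Fact p.Prime] (U : Type) [Fintype U] [DecidableEq U] (n s L ℓ : ℕ)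
    (C : Circuit n s) (f F : Fin s → ℕ) (B : U → Finset (Fin n)), C.PathBound p f F →
    C.Majority → (∀ j, (B j).Nonempty) → (∀ i j, i ≠ j → Disjoint (B i) (B j)) →
    2 * ∑ j, (B j).card ≤ n →
    (∀ g M, C.Special p g M → ∑ j, (∑ v ∈ B j, C.vw g v) % M + ∑ h, C.gw g h % M ≤ f g) →
    F C.out ≤ 2 ^ L → 1 ≤ ℓ → 4 * n * s * (L + 1) ≤ 2 ^ ℓ →
    ∃ D : ℕ, D ^ 2 ≤ (16 * p * (ℓ + 1)) ^ (2 * (C.level C.out + 1)) * F C.out ∧
      Fintype.card U < 100 * (D + 1) ^ 2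

/-- NumP: the numerical part. -/
def St_NumP : Prop :=
  ∀ p d : ℕ, 2 ≤ p → ∃ K : ℕ, 2 ≤ K ∧ ∀ n s F k : ℕ, 1 ≤ n → 1 ≤ s → k ≤ n → 1 ≤ F → F ≤ n →
    (∀ L ℓ : ℕ, F ≤ 2 ^ L → 1 ≤ ℓ → 4 * n * s * (L + 1) ≤ 2 ^ ℓ →
      k ≤ 800 * (16 * p * (ℓ + 1)) ^ (2 * d) * F) →
    (k : ℝ) ≤ F * (K * Real.log (s + n)) ^ K

/-- BlkP: the theorem for blocks. -/
def St_BlkP : Prop :=
  ∀ p d : ℕ, p.Prime → ∃ K : ℕ, ∀ (n s : ℕ) (C : Circuit n s) (f F : Fin s → ℕ),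
    C.level C.out + 1 ≤ d → C.PathBound p f F → C.Majority →
    ∀ (k : ℕ) (B : Fin k → Finset (Fin n)), (∀ j, (B j).Nonempty) →
      (∀ i j, i ≠ j → Disjoint (B i) (B j)) →
      (∀ g M, C.Special p g M → ∑ j, (∑ v ∈ B j, C.vw g v) % M + ∑ h, C.gw g h % M ≤ f g) →
      (k : ℝ) ≤ F C.out * (K * Real.log (s + n)) ^ K

/-- LocP: local rigidity. -/
def St_LocP : Prop :=
  ∀ p d : ℕ, p.Prime → ∃ K : ℕ, ∀ (n s m r k : ℕ) (C : Circuit n s) (f F : Fin s → ℕ)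
    (W : Fin k → Finset (Fin n)) (R : Fin k → Fin r → Fin n → ZMod m), 2 ≤ m →
    C.level C.out + 1 ≤ d → C.PathBound p (fun g => m * f g) F → C.Majority →
    (∀ j, m ^ 2 * r < (W j).card) → (∀ i j, i ≠ j → Disjoint (W i) (W j)) →
    (∀ g M, C.Special p g M → M = m ∧ ∃ (J : Finset (Fin k)) (H : Finset (Fin s)),
      J.card + H.card ≤ f g ∧ (∀ h, h ∉ H → (C.gw g h : ZMod m) = 0) ∧
      ∀ j, j ∉ J → ∃ a : Fin r → ZMod m, ∀ v ∈ W j, (C.vw g v : ZMod m) = ∑ i, a i * R j i v) →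
    (k : ℝ) ≤ F C.out * (K * Real.log (s + n)) ^ K

end Pool.Agent.RIG
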