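import Pool.Agent.RIG.Stmts

/-!
# Functions on a window are combinations of binomial coefficients
-/

set_option autoImplicit false

namespace Pool.Agent.RIG

open Finset Pool.Agent.RS

theorem st_Win : St_Win := by
  intro F _ a D
  induction D with
  | zero =>
    intro g
    refine ⟨fun _ => g a, fun S h1 h2 => ?_⟩
    have h3 : S = a := by omega
    subst h3
    simp
  | succ D ih =>
    intro g
    obtain ⟨b, hb⟩ := ih fun S => g (S + 1) - g S
    let b' : ℕ → F := fun j => Nat.casesOn j
      (g a - ∑ j ∈ range (D + 1), b j * ((a.choose (j + 1) : ℕ) : F)) fun j => b j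
    have hsum : ∀ S : ℕ, ∑ j ∈ range (D + 1 + 1), b' j * ((S.choose j : ℕ) : F) =
        (g a - ∑ j ∈ range (D + 1), b j * ((a.choose (j + 1) : ℕ) : F)) +
          ∑ j ∈ range (D + 1), b j * ((S.choose (j + 1) : ℕ) : F) := by
      intro S
      rw [Finset.sum_range_succ', add_comm]
      congr 1
      show (g a - ∑ j ∈ range (D + 1), b j * ((a.choose (j + 1) : ℕ) : F)) *
        ((S.choose 0 : ℕ) : F) = _
      rw [Nat.choose_zero_right, Nat.cast_one, mul_one]
    refine ⟨b', fun S h1 h2 => ?_⟩
    rw [hsum]
    obtain ⟨k, rfl⟩ := Nat.exists_eq_add_of_le h1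
    clear h1
    induction k with
    | zero =>
      rw [add_zero]
      ring
    | succ k ihk =>
      have h3 := ihk (by omega)
      have h4 := hb (a + k) (by omega) (by omega)
      have h5 : ∀ j, (((a + (k + 1)).choose (j + 1) : ℕ) : F) =
          (((a + k).choose j : ℕ) : F) + (((a + k).choose (j + 1) : ℕ) : F) := by
        intro j
        rw [← Nat.cast_add, ← Nat.choose_succ_succ]
        rfl
      simp only [h5, mul_add, Finset.sum_add_distrib]
      rw [h4]
      have h6 : a + k + 1 = a + (k + 1) := by ring
      rw [h6]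
      linear_combination h3

end Pool.Agent.RIG
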